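import Mathlib

/-!
# An abelian cover of a finite group in which element orders grow

For a finite group `G` and `m ≥ 1` let `Cov G m` be the set of the pairs `(v, g)` where `g ∈ G` and
`v` is a family of elements `v x`, `x ∈ G`, of the group ring of `G` over `ZMod m` with
`∑ x, (x - 1) v x = g - 1`; with the product `(v, g) (w, h) = (v h + w, g h)` it is a group, an
extension of `G` by an abelian group of exponent dividing `m`.
-/

set_option autoImplicit false

namespace Run7.h456.IG

open Finset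

/-- the cover `Cov G m`: `v x y` is the coefficient of `y` in the element `v x` of the group ring -/
@[ext]
structure Cov (G : Type) [Group G] [Fintype G] [DecidableEq G] (m : ℕ) where
  v : G → G → ZMod m
  g : G
  h : ∀ y, ∑ x, (v x (x⁻¹ * y) - v x y) = (if y = g then 1 else 0) - (if y = 1 then 1 else 0)

namespace Cov

variable {G : Type} [Group G] [Fintype G] [DecidableEq G] {m : ℕ}

theorem mul_cond (a b : Cov G m) (y : G) :
    ∑ x, ((a.v x (x⁻¹ * y * b.g⁻¹) + b.v x (x⁻¹ * y)) - (a.v x (y * b.g⁻¹) + b.v x y)) =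
      (if y = a.g * b.g then 1 else 0) - (if y = 1 then 1 else 0) := by
  have h1 := a.h (y * b.g⁻¹)
  have h2 := b.h y
  have h3 : ∑ x, ((a.v x (x⁻¹ * y * b.g⁻¹) + b.v x (x⁻¹ * y)) - (a.v x (y * b.g⁻¹) + b.v x y)) =
      ∑ x, (a.v x (x⁻¹ * (y * b.g⁻¹)) - a.v x (y * b.g⁻¹)) +
      ∑ x, (b.v x (x⁻¹ * y) - b.v x y) := by
    rw [← Finset.sum_add_distrib]
    refine Finset.sum_congr rfl fun x _ => ?_
    rw [← mul_assoc]
    ring
  rw [h3, h1, h2]
  have h4 : (y * b.g⁻¹ = a.g) ↔ (y = a.g * b.g) := by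
    rw [mul_inv_eq_iff_eq_mul]
  have h5 : (y * b.g⁻¹ = 1) ↔ (y = b.g) := by
    rw [mul_inv_eq_iff_eq_mul, one_mul]
  simp only [h4, h5]
  ring

instance : Mul (Cov G m) :=
  ⟨fun a b => ⟨fun x y => a.v x (y * b.g⁻¹) + b.v x y, a.g * b.g, fun y => mul_cond a b y⟩⟩

instance : One (Cov G m) := ⟨⟨fun _ _ => 0, 1, fun y => by simp⟩⟩

instance : Inv (Cov G m) :=
  ⟨fun a => ⟨fun x y => - a.v x (y * a.g), a.g⁻¹, fun y => by
    have h1 := a.h (y * a.g)
    have h3 : ∑ x, (- a.v x (x⁻¹ * y * a.g) - - a.v x (y * a.g)) =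
        - ∑ x, (a.v x (x⁻¹ * (y * a.g)) - a.v x (y * a.g)) := by
      rw [← Finset.sum_neg_distrib]
      refine Finset.sum_congr rfl fun x _ => ?_
      rw [← mul_assoc]
      ring
    rw [h3, h1]
    have h4 : (y * a.g = a.g) ↔ (y = 1) := by simp
    have h5 : (y * a.g = 1) ↔ (y = a.g⁻¹) := by
      rw [mul_eq_one_iff_eq_inv]
    simp only [h4, h5]
    ring⟩⟩

theorem mul_v (a b : Cov G m) (x y : G) : (a * b).v x y = a.v x (y * b.g⁻¹) + b.v x y := rfl
theorem mul_g (a b : Cov G m) : (a * b).g = a.g * b.g := rfl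
theorem one_v (x y : G) : (1 : Cov G m).v x y = 0 := rfl
theorem one_g : (1 : Cov G m).g = 1 := rfl
theorem inv_v (a : Cov G m) (x y : G) : (a⁻¹).v x y = - a.v x (y * a.g) := rfl
theorem inv_g (a : Cov G m) : (a⁻¹).g = a.g⁻¹ := rfl

theorem eq_of {a b : Cov G m} (h1 : ∀ x y, a.v x y = b.v x y) (h2 : a.g = b.g) : a = b := by
  apply Cov.ext
  · funext x y
    exact h1 x y
  · exact h2

instance : Group (Cov G m) where
  mul_assoc a b c := by
    apply eq_of
    · intro x y
      simp only [mul_v, mul_g, mul_inv_rev, mul_assoc]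
      ring
    · simp only [mul_g, mul_assoc]
  one_mul a := by
    apply eq_of
    · intro x y
      simp only [mul_v, one_v, zero_add]
    · simp only [mul_g, one_g, one_mul]
  mul_one a := by
    apply eq_of
    · intro x y
      simp only [mul_v, one_v, one_g, inv_one, mul_one, add_zero]
    · simp only [mul_g, one_g, mul_one]
  inv_mul_cancel a := by
    apply eq_of
    · intro x y
      simp only [mul_v, inv_v, one_v, inv_mul_cancel_right, neg_add_cancel]
    · simp only [mul_g, inv_g, one_g, inv_mul_cancel]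

/-- the projection to `G` -/
def pr : Cov G m →* G where
  toFun a := a.g
  map_one' := rfl
  map_mul' _ _ := rfl

theorem pr_apply (a : Cov G m) : pr a = a.g := rfl

theorem pr_surjective : Function.Surjective (pr : Cov G m →* G) := by
  intro g
  refine ⟨⟨fun x y => if x = g ∧ y = 1 then 1 else 0, g, fun y => ?_⟩, rfl⟩
  rw [Finset.sum_eq_single g]
  · have h4 : (g⁻¹ * y = 1) ↔ (y = g) := by
      rw [inv_mul_eq_one, eq_comm]
    simp only [true_and, h4]
  · intro x _ hx
    simp [hx]
  · intro h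
    exact absurd (Finset.mem_univ _) h

theorem ker_comm (a b : Cov G m) (ha : pr a = 1) (hb : pr b = 1) : a * b = b * a := by
  rw [pr_apply] at ha hb
  apply eq_of
  · intro x y
    simp only [mul_v, ha, hb, inv_one, mul_one]
    ring
  · simp only [mul_g, ha, hb]

instance [NeZero m] : Finite (Cov G m) := by
  refine Finite.of_injective (β := (G → G → ZMod m) × G) (fun a => (a.v, a.g)) ?_
  intro a b h
  simp only [Prod.mk.injEq] at h
  exact eq_of (fun x y => by rw [h.1]) h.2

theorem pow_g (a : Cov G m) (n : ℕ) : (a ^ n).g = a.g ^ n := by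
  rw [← pr_apply, map_pow, pr_apply]

theorem pow_v (a : Cov G m) (n : ℕ) (x y : G) :
    (a ^ n).v x y = ∑ i ∈ range n, a.v x (y * (a.g ^ i)⁻¹) := by
  induction n generalizing y with
  | zero => simp [one_v]
  | succ n ih =>
    rw [pow_succ, mul_v, ih, Finset.sum_range_succ', pow_zero, inv_one, mul_one]
    congr 1
    refine Finset.sum_congr rfl fun i _ => ?_
    rw [mul_assoc, ← mul_inv_rev, ← pow_succ]

theorem pow_v_of_one (b : Cov G m) (hb : b.g = 1) (n : ℕ) (x y : G) :
    (b ^ n).v x y = n * b.v x y := by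
  rw [pow_v]
  simp [hb]

end Cov

end Run7.h456.IG
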