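import Mathlib
import Pool.Agent.Run7.h456.IG.Cov

/-!
# Subgroups of `Cov G m` and their images in `G`

Let `T` be a subgroup of `Cov G m` with image `U` in `G`, where `|U|` divides `m`. If there is a
crossed homomorphism from `T` to the kernel of `Cov G m → G` which is the `e`-th power on the
elements of the kernel which are in `T`, then `|U|` divides `e`.
-/

set_option autoImplicit false

namespace Run7.h456.IG

open Finset

variable {G : Type} [Group G] [Fintype G] [DecidableEq G] {m : ℕ}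

theorem sum_invariant {R : Type} [CommRing R] (U : Subgroup G) (F : G → R)
    (hF : ∀ u ∈ U, ∀ y, F (y * u) = F y) : ∃ s : R, ∑ y, F y = (Nat.card U : R) * s := by
  classical
  refine ⟨∑ q : G ⧸ U, F q.out, ?_⟩
  rw [← Finset.sum_fiberwise Finset.univ (fun y : G => (y : G ⧸ U)), Finset.mul_sum]
  refine Finset.sum_congr rfl fun q _ => ?_
  have h1 : ∀ y ∈ Finset.univ.filter (fun y : G => (y : G ⧸ U) = q), F y = F q.out := by
    intro y hy
    rw [Finset.mem_filter] at hy
    have h2 : ((q.out : G) : G ⧸ U) = (y : G ⧸ U) := by rw [hy.2, QuotientGroup.out_eq']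
    rw [QuotientGroup.eq] at h2
    have h3 := hF _ h2 q.out
    rw [mul_inv_cancel_left] at h3
    exact h3
  rw [Finset.sum_congr rfl h1, Finset.sum_const, nsmul_eq_mul]
  congr 2
  have h2 : (Finset.univ.filter (fun y : G => (y : G ⧸ U) = q)) =
      (Finset.univ : Finset U).map (⟨fun u : U => q.out * (u : G), fun a b h => by
        apply Subtype.ext
        exact mul_left_cancel h⟩ : U ↪ G) := by
    ext y
    simp only [Finset.mem_filter, Finset.mem_univ, true_and, Finset.mem_map]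
    constructor
    · intro hy
      have h2 : ((q.out : G) : G ⧸ U) = (y : G ⧸ U) := by rw [hy, QuotientGroup.out_eq']
      rw [QuotientGroup.eq] at h2
      exact ⟨⟨_, h2⟩, mul_inv_cancel_left _ _⟩
    · rintro ⟨u, rfl⟩
      show ((q.out * (u : G) : G) : G ⧸ U) = q
      rw [QuotientGroup.mk_mul_of_mem _ u.2, QuotientGroup.out_eq']
  rw [h2, Finset.card_map, Finset.card_univ, Nat.card_eq_fintype_card]

theorem crossed_dvd [NeZero m] (T : Subgroup (Cov G m)) (hm : Nat.card (T.map Cov.pr) ∣ m) (e : ℕ)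
    (b : Cov G m → Cov G m) (hb1 : ∀ t ∈ T, (b t).g = 1)
    (hb2 : ∀ t ∈ T, ∀ t' ∈ T, b (t * t') = t'⁻¹ * b t * t' * b t')
    (hb3 : ∀ t ∈ T, t.g = 1 → b t = t ^ e) : Nat.card (T.map Cov.pr) ∣ e := by
  classical
  set U : Subgroup G := T.map Cov.pr with hU
  -- the cocycle
  set z : Cov G m → G → G → ZMod m := fun t x y => (e : ZMod m) * t.v x y - (b t).v x y with hz
  have z1 : ∀ t ∈ T, ∀ t' ∈ T, ∀ x y, z (t * t') x y = z t x (y * t'.g⁻¹) + z t' x y := by
    intro t ht t' ht' x y
    simp only [hz, hb2 t ht t' ht', Cov.mul_v, Cov.inv_v, hb1 t' ht', hb1 t ht, inv_one,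
      mul_one, inv_mul_cancel_right]
    ring
  have z2 : ∀ t ∈ T, t.g = 1 → ∀ x y, z t x y = 0 := by
    intro t ht h x y
    simp only [hz]
    rw [hb3 t ht h, Cov.pow_v_of_one t h, sub_self]
  have hs : ∀ u : U, ∃ t : Cov G m, t ∈ T ∧ t.g = (u : G) := by
    rintro ⟨u, t, ht, rfl⟩
    exact ⟨t, ht, rfl⟩
  choose s hsT hsg using hs
  have z3 : ∀ t ∈ T, ∀ u : U, t.g = (u : G) → ∀ x y, z t x y = z (s u) x y := by
    intro t ht u hu x y
    have h1 : t = s u * ((s u)⁻¹ * t) := by rw [mul_inv_cancel_left]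
    have h2 : (s u)⁻¹ * t ∈ T := T.mul_mem (T.inv_mem (hsT u)) ht
    have h3 : ((s u)⁻¹ * t).g = 1 := by
      rw [Cov.mul_g, Cov.inv_g, hsg, hu, inv_mul_cancel]
    rw [h1, z1 _ (hsT u) _ h2, z2 _ h2 h3, h3, inv_one, mul_one, add_zero]
  -- the height
  have hh : ∀ y : G, ((y : G ⧸ U).out)⁻¹ * y ∈ U := by
    intro y
    have h1 : (((y : G ⧸ U).out : G) : G ⧸ U) = (y : G ⧸ U) := QuotientGroup.out_eq' _
    rwa [QuotientGroup.eq] at h1
  set h : G → U := fun y => ⟨_, hh y⟩ with hhdef
  have h1 : ∀ (y : G) (u : U), h (y * u) = h y * u := by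
    intro y u
    apply Subtype.ext
    show ((y * u : G) : G ⧸ U).out⁻¹ * (y * u) = ((y : G ⧸ U).out)⁻¹ * y * u
    rw [QuotientGroup.mk_mul_of_mem _ u.2, mul_assoc]
  set Y : G → G → ZMod m := fun x y => - z (s (h y)) x y with hY
  have hY1 : ∀ (u : U) (x y : G), z (s u) x y = Y x (y * (u : G)⁻¹) - Y x y := by
    intro u x y
    have e1 : h y = h (y * (u : G)⁻¹) * u := by
      rw [← h1, inv_mul_cancel_right]
    have e2 : z (s (h y)) x y = z (s (h (y * (u : G)⁻¹)) * s u) x y := by
      refine (z3 _ (T.mul_mem (hsT _) (hsT _)) (h y) ?_ x y).symm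
      rw [Cov.mul_g, hsg, hsg, e1]
      rfl
    rw [z1 _ (hsT _) _ (hsT _), hsg] at e2
    simp only [hY]
    rw [e2]
    ring
  -- the value of the relation
  have hD : ∀ (u : U) (y : G), ∑ x, (z (s u) x (x⁻¹ * y) - z (s u) x y) =
      (e : ZMod m) * ((if y = (u : G) then 1 else 0) - (if y = 1 then 1 else 0)) := by
    intro u y
    have e1 := (s u).h y
    have e2 := (b (s u)).h y
    rw [hb1 _ (hsT u), sub_self] at e2
    rw [hsg] at e1
    have e3 : ∑ x, (z (s u) x (x⁻¹ * y) - z (s u) x y) =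
        (e : ZMod m) * (∑ x, ((s u).v x (x⁻¹ * y) - (s u).v x y)) -
        ∑ x, ((b (s u)).v x (x⁻¹ * y) - (b (s u)).v x y) := by
      rw [Finset.mul_sum, ← Finset.sum_sub_distrib]
      refine Finset.sum_congr rfl fun x _ => ?_
      simp only [hz]
      ring
    rw [e3, e1, e2, sub_zero]
  set D : G → ZMod m := fun y => ∑ x, (Y x (x⁻¹ * y) - Y x y) with hDdef
  set F : G → ZMod m := fun y => (e : ZMod m) * (if y = 1 then 1 else 0) - D y with hFdef
  have hF : ∀ (u : U) (y : G), F (y * (u : G)⁻¹) = F y := by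
    intro u y
    have e1 := hD u y
    have e2 : ∑ x, (z (s u) x (x⁻¹ * y) - z (s u) x y) = D (y * (u : G)⁻¹) - D y := by
      simp only [hDdef]
      rw [← Finset.sum_sub_distrib]
      refine Finset.sum_congr rfl fun x _ => ?_
      rw [hY1, hY1, mul_assoc]
      ring
    rw [e2] at e1
    simp only [hFdef]
    have e3 : (y * (u : G)⁻¹ = 1) ↔ (y = (u : G)) := by
      rw [mul_inv_eq_one]
    simp only [e3]
    linear_combination -e1
  have hF2 : ∀ u ∈ U, ∀ y, F (y * u) = F y := by
    intro u hu y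
    have e1 := hF ⟨u, hu⟩ (y * u)
    simp only [mul_inv_cancel_right] at e1
    exact e1.symm
  obtain ⟨c, hc⟩ := sum_invariant U F hF2
  have hsum : ∑ y, F y = (e : ZMod m) := by
    simp only [hFdef, Finset.sum_sub_distrib, hDdef, mul_ite, mul_one, mul_zero,
      Finset.sum_ite_eq', Finset.mem_univ, if_true]
    have e1 : ∑ y, ∑ x, Y x (x⁻¹ * y) = ∑ y, ∑ x, Y x y := by
      rw [Finset.sum_comm]
      rw [Finset.sum_comm (f := fun y x => Y x y)]
      refine Finset.sum_congr rfl fun x _ => ?_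
      exact Equiv.sum_comp (Equiv.mulLeft x⁻¹) (fun y => Y x y)
    rw [e1, sub_self, sub_zero]
  rw [hsum] at hc
  -- divisibility
  have e1 : ((e : ℕ) : ZMod (Nat.card U)) = 0 := by
    have e2 := congrArg (ZMod.castHom hm (ZMod (Nat.card U))) hc
    rw [map_mul, map_natCast, map_natCast, ZMod.natCast_self, zero_mul] at e2
    exact e2
  exact (ZMod.natCast_eq_zero_iff _ _).mp e1

/-- an abelian subgroup of `Cov G m` has cyclic image in `G` -/
theorem abelian_cyclic [NeZero m] (T : Subgroup (Cov G m))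
    (hT : ∀ a ∈ T, ∀ b ∈ T, a * b = b * a) (hm : Nat.card (T.map Cov.pr) ∣ m) :
    IsCyclic (T.map Cov.pr) := by
  set U : Subgroup G := T.map Cov.pr with hU
  let _ : CommGroup U := { (inferInstance : Group U) with
    mul_comm := by
      rintro ⟨a, a', ha, rfl⟩ ⟨b, b', hb, rfl⟩
      apply Subtype.ext
      show Cov.pr a' * Cov.pr b' = Cov.pr b' * Cov.pr a'
      rw [← map_mul, ← map_mul, hT a' ha b' hb] }
  rw [IsCyclic.iff_exponent_eq_card]
  apply Nat.dvd_antisymm
  · exact Group.exponent_dvd_nat_card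
  · refine crossed_dvd T hm (Monoid.exponent U) (fun t => t ^ Monoid.exponent U) ?_ ?_ ?_
    · intro t ht
      have h1 : (⟨Cov.pr t, t, ht, rfl⟩ : U) ^ Monoid.exponent U = 1 := Monoid.pow_exponent_eq_one _
      have h2 := congrArg Subtype.val h1
      rw [Cov.pow_g]
      exact h2
    · intro t ht t' ht'
      have h1 : Commute t t' := hT t ht t' ht'
      rw [h1.mul_pow]
      congr 1
      have h2 : t'⁻¹ * t ^ Monoid.exponent U * t' = t ^ Monoid.exponent U := by
        rw [mul_assoc, (h1.pow_left _).eq, inv_mul_cancel_left]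
      exact h2.symm
    · intro t _ _
      rfl

end Run7.h456.IG
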