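import Mathlib
import Pool.Agent.Run7.h456.IG.Cov

/-!
# Element orders in `Cov G m`

If `t` in `Cov G m` lies above an element `g` of order `e` of `G`, if the prime `l` divides `e` and
`l ^ k` divides `m`, then `t ^ (e n) = 1` implies that `l ^ k` divides `n`.
-/

set_option autoImplicit false

namespace Run7.h456.IG

open Finset

variable {G : Type} [Group G]

theorem exists_height (g : G) (l : ℕ) (hl : l ∣ orderOf g) :
    ∃ c : G → ZMod l, ∀ y, c (y * g) = c y + 1 := by
  classical
  have hex : ∀ y : G, ∃ i : ℤ, g ^ i = ((y : G ⧸ Subgroup.zpowers g).out)⁻¹ * y := by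
    intro y
    have h1 : (((y : G ⧸ Subgroup.zpowers g).out : G) : G ⧸ Subgroup.zpowers g) =
        (y : G ⧸ Subgroup.zpowers g) := QuotientGroup.out_eq' _
    rw [QuotientGroup.eq] at h1
    exact h1
  choose i hi using hex
  refine ⟨fun y => (i y : ZMod l), fun y => ?_⟩
  have h1 : ((y * g : G) : G ⧸ Subgroup.zpowers g) = (y : G ⧸ Subgroup.zpowers g) :=
    QuotientGroup.mk_mul_of_mem y (Subgroup.mem_zpowers g)
  have h2 := hi (y * g)
  rw [h1, ← mul_assoc, ← hi y, ← zpow_add_one] at h2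
  rw [zpow_eq_zpow_iff_modEq] at h2
  have h3 : (l : ℤ) ∣ (orderOf g : ℤ) := by exact_mod_cast hl
  have h4 : ((i (y * g) : ℤ) : ZMod l) = ((i y + 1 : ℤ) : ZMod l) := by
    rw [ZMod.intCast_eq_intCast_iff]
    exact Int.ModEq.of_dvd h3 h2
  simp only [h4, Int.cast_add, Int.cast_one]

theorem sum_coset [Fintype G] [DecidableEq G] {R : Type} [AddCommMonoid R] (g : G) (F : G → R)
    (q : G ⧸ Subgroup.zpowers g) [DecidableEq (G ⧸ Subgroup.zpowers g)] :
    ∑ y ∈ Finset.univ.filter (fun y : G => (y : G ⧸ Subgroup.zpowers g) = q), F y =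
      ∑ i ∈ range (orderOf g), F (q.out * (g ^ i)⁻¹) := by
  symm
  apply Finset.sum_nbij (fun i => q.out * (g ^ i)⁻¹)
  · intro i _
    rw [Finset.mem_filter]
    refine ⟨Finset.mem_univ _, ?_⟩
    rw [QuotientGroup.mk_mul_of_mem q.out
      ((Subgroup.zpowers g).inv_mem (Subgroup.pow_mem _ (Subgroup.mem_zpowers g) i))]
    exact QuotientGroup.out_eq' q
  · intro i hi j hj hij
    simp only [Finset.coe_range, Set.mem_Iio] at hi hj
    have h1 : g ^ i = g ^ j := by
      have := mul_left_cancel hij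
      exact inv_injective this
    exact pow_injOn_Iio_orderOf hi hj h1
  · intro y hy
    simp only [Finset.coe_filter, Finset.mem_univ, true_and, Set.mem_setOf_eq] at hy
    have h1 : ((q.out : G) : G ⧸ Subgroup.zpowers g) = (y : G ⧸ Subgroup.zpowers g) := by
      rw [hy]
      exact QuotientGroup.out_eq' q
    rw [QuotientGroup.eq] at h1
    have h2 := (Subgroup.zpowers g).inv_mem h1
    rw [mem_zpowers_iff_mem_range_orderOf, Finset.mem_image] at h2
    obtain ⟨n, hn, hn2⟩ := h2
    refine ⟨n, by simpa using hn, ?_⟩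
    show q.out * (g ^ n)⁻¹ = y
    rw [hn2]
    group
  · intro i _
    rfl

theorem sum_inv [Fintype G] {R : Type} [CommRing R] (g : G) (u d : G → R)
    (hu : ∀ y, ∑ i ∈ range (orderOf g), u (y * (g ^ i)⁻¹) = 0) (hd : ∀ y, d (y * g) = d y) :
    ∑ y, u y * d y = 0 := by
  classical
  rw [← Finset.sum_fiberwise Finset.univ (fun y : G => (y : G ⧸ Subgroup.zpowers g))]
  apply Finset.sum_eq_zero
  intro q _
  rw [sum_coset g (fun y => u y * d y) q]
  have h1 : ∀ (i : ℕ) (y : G), d (y * (g ^ i)⁻¹) = d y := by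
    intro i
    induction i with
    | zero => intro y; simp
    | succ n ih =>
      intro y
      rw [← hd (y * (g ^ (n + 1))⁻¹)]
      rw [pow_succ', mul_inv_rev, ← mul_assoc, inv_mul_cancel_right]
      exact ih y
  simp only [h1]
  rw [← Finset.sum_mul, hu, zero_mul]

variable [Fintype G] [DecidableEq G] {m : ℕ} [NeZero m]

theorem order_grows (l k n : ℕ) (hl : l.Prime) (hk : l ^ k ∣ m) (t : Cov G m)
    (hlt : l ∣ orderOf t.g) (ht : t ^ (orderOf t.g * n) = 1) : l ^ k ∣ n := by
  classical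
  rcases Nat.eq_zero_or_pos k with rfl | hk0
  · simp
  by_contra hcon
  have hlm : l ∣ m := dvd_trans (dvd_pow_self l (by omega)) hk
  -- the sums of `v x` over the cosets vanish modulo `l`
  have hS : ∀ x y, ∑ i ∈ range (orderOf t.g), ZMod.castHom hlm (ZMod l) (t.v x (y * (t.g ^ i)⁻¹)) = 0 := by
    intro x y
    have h1 : ((t ^ orderOf t.g) ^ n).v x y = 0 := by
      rw [← pow_mul, ht]
      rfl
    rw [Cov.pow_v_of_one _ (by rw [Cov.pow_g, pow_orderOf_eq_one]), Cov.pow_v] at h1
    set S := ∑ i ∈ range (orderOf t.g), t.v x (y * (t.g ^ i)⁻¹) with hSdef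
    rw [← map_sum, ← hSdef]
    have h2 : ((n * S.val : ℕ) : ZMod m) = 0 := by
      push_cast
      rw [ZMod.natCast_zmod_val]
      exact h1
    rw [ZMod.natCast_eq_zero_iff] at h2
    have h3 : l ^ k ∣ n * S.val := dvd_trans hk h2
    have h4 : l ∣ S.val := by
      by_contra hc
      have h5 : Nat.Coprime (l ^ k) S.val :=
        Nat.Coprime.pow_left k ((Nat.Prime.coprime_iff_not_dvd hl).mpr hc)
      exact hcon (h5.dvd_of_dvd_mul_right h3)
    have h6 : S = ((S.val : ℕ) : ZMod m) := (ZMod.natCast_zmod_val S).symm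
    rw [h6, map_natCast, ZMod.natCast_eq_zero_iff]
    exact h4
  obtain ⟨c, hc⟩ := exists_height t.g l hlt
  -- evaluate the relation
  have h1 : ∑ y, c y * (∑ x, (ZMod.castHom hlm (ZMod l) (t.v x (x⁻¹ * y)) -
      ZMod.castHom hlm (ZMod l) (t.v x y))) = c t.g - c 1 := by
    have h2 : ∀ y, ∑ x, (ZMod.castHom hlm (ZMod l) (t.v x (x⁻¹ * y)) -
      ZMod.castHom hlm (ZMod l) (t.v x y)) = (if y = t.g then 1 else 0) - (if y = 1 then 1 else 0) := by
      intro y
      have h3 := congrArg (ZMod.castHom hlm (ZMod l)) (t.h y)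
      rw [map_sum] at h3
      simp only [map_sub] at h3
      rw [h3]
      split_ifs <;> simp only [map_one, map_zero]
    simp only [h2, mul_sub, mul_ite, mul_one, mul_zero, Finset.sum_sub_distrib,
      Finset.sum_ite_eq', Finset.mem_univ, if_true]
  have h2 : ∑ y, c y * (∑ x, (ZMod.castHom hlm (ZMod l) (t.v x (x⁻¹ * y)) -
      ZMod.castHom hlm (ZMod l) (t.v x y))) =
      ∑ x, ∑ y, ZMod.castHom hlm (ZMod l) (t.v x y) * (c (x * y) - c y) := by
    simp only [Finset.mul_sum]
    rw [Finset.sum_comm]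
    refine Finset.sum_congr rfl fun x _ => ?_
    simp only [mul_sub, Finset.sum_sub_distrib]
    congr 1
    · rw [← Equiv.sum_comp (Equiv.mulLeft x)]
      refine Finset.sum_congr rfl fun y _ => ?_
      simp only [Equiv.coe_mulLeft, inv_mul_cancel_left]
      ring
    · refine Finset.sum_congr rfl fun y _ => ?_
      ring
  rw [h2] at h1
  have h3 : ∑ x, ∑ y, ZMod.castHom hlm (ZMod l) (t.v x y) * (c (x * y) - c y) = 0 := by
    apply Finset.sum_eq_zero
    intro x _
    apply sum_inv t.g (fun y => ZMod.castHom hlm (ZMod l) (t.v x y)) (fun y => c (x * y) - c y)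
    · exact hS x
    · intro y
      show c (x * (y * t.g)) - c (y * t.g) = c (x * y) - c y
      rw [← mul_assoc, hc, hc]
      ring
  rw [h3] at h1
  have h4 : c t.g = c 1 + 1 := by
    rw [← hc 1, one_mul]
  rw [h4] at h1
  have h5 : (1 : ZMod l) = 0 := by
    rw [h1]
    ring
  have : Fact l.Prime := ⟨hl⟩
  exact one_ne_zero h5

end Run7.h456.IG
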