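import Mathlib
import Pool.Agent.Run7.h456.IG.Abel
import Pool.Agent.Run7.h456.IG.Ord

/-!
# Metacyclic subgroups of prime power order of `Cov G m` have cyclic images in `G`
-/

set_option autoImplicit false

namespace Run7.h456.IG

theorem lte_odd (l : ℕ) (hl : l.Prime) (h2 : l ≠ 2) (K b : ℕ) (r : ℤ)
    (h : (l : ℤ) ^ K ∣ r ^ l ^ b - 1) : (l : ℤ) ^ (K - b) ∣ r - 1 := by
  rcases Nat.lt_or_ge b K with hbK | hbK
  swap
  · rw [Nat.sub_eq_zero_of_le hbK, pow_zero]
    exact one_dvd _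
  have hlF : Fact l.Prime := ⟨hl⟩
  have h1 : (l : ℤ) ∣ r ^ l ^ b - 1 := (dvd_pow_self _ (by omega)).trans h
  have h3 : (l : ℤ) ∣ r - 1 := by
    have e1 : ((r ^ l ^ b - 1 : ℤ) : ZMod l) = 0 := (ZMod.intCast_zmod_eq_zero_iff_dvd _ _).mpr h1
    have e2 : ((r - 1 : ℤ) : ZMod l) = 0 := by
      push_cast at e1 ⊢
      rwa [ZMod.pow_card_pow] at e1
    exact (ZMod.intCast_zmod_eq_zero_iff_dvd _ _).mp e2
  have h4 : ¬ (l : ℤ) ∣ r := by
    intro hc
    have e1 : (l : ℤ) ∣ 1 := by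
      have := dvd_sub hc h3
      simpa using this
    have e2 : l ∣ 1 := by exact_mod_cast e1
    exact hl.one_lt.ne' (Nat.dvd_one.mp e2)
  have h5 := emultiplicity_pow_prime_pow_sub_pow_prime_pow (R := ℤ) (p := l)
    (Nat.prime_iff_prime_int.mp hl) (hl.odd_of_ne_two h2) (x := r) (y := 1) h3 h4 b
  rw [one_pow] at h5
  have h6 : ((K : ℕ) : ℕ∞) ≤ emultiplicity (l : ℤ) (r - 1) + b := by
    rw [← h5]
    exact le_emultiplicity_of_pow_dvd h
  apply pow_dvd_of_le_emultiplicity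
  have h7 : ((K : ℕ) : ℕ∞) = ((K - b : ℕ) : ℕ∞) + b := by
    rw [← Nat.cast_add, Nat.sub_add_cancel hbK.le]
  rw [h7] at h6
  exact (ENat.add_le_add_iff_right (ENat.natCast_ne_top b)).mp h6

theorem lte_two (K b : ℕ) (r : ℤ) (h : (2 : ℤ) ^ K ∣ r ^ 2 ^ b - 1) :
    (2 : ℤ) ^ (K - b) ∣ r ^ 2 - 1 := by
  rcases Nat.lt_or_ge b K with hbK | hbK
  swap
  · rw [Nat.sub_eq_zero_of_le hbK, pow_zero]
    exact one_dvd _
  rcases b with - | b
  · rw [pow_zero, pow_one] at h
    rw [Nat.sub_zero]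
    refine h.trans ⟨r + 1, by ring⟩
  have h1 : (2 : ℤ) ∣ r ^ 2 ^ (b + 1) - 1 := (dvd_pow_self _ (by omega)).trans h
  have hodd : Odd r := by
    by_contra hc
    rw [Int.not_odd_iff_even] at hc
    have e1 : (2 : ℤ) ∣ r ^ 2 ^ (b + 1) :=
      (even_iff_two_dvd.mp hc).trans (dvd_pow_self _ (by positivity))
    have e2 := dvd_sub e1 h1
    rw [sub_sub_cancel] at e2
    norm_num at e2
  have h4 : (4 : ℤ) ∣ r ^ 2 - 1 := by
    have := Int.eight_dvd_sq_sub_one_of_odd hodd
    exact (by norm_num : (4 : ℤ) ∣ 8).trans this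
  have h5 : ¬ (2 : ℤ) ∣ r ^ 2 := by
    rw [← even_iff_two_dvd, Int.not_even_iff_odd]
    exact hodd.pow
  have h6 := Int.two_pow_two_pow_sub_pow_two_pow (x := r ^ 2) (y := 1) b h4 h5
  rw [one_pow, ← pow_mul, ← pow_succ'] at h6
  have h7 : ((K : ℕ) : ℕ∞) ≤ emultiplicity (2 : ℤ) (r ^ 2 - 1) + b := by
    rw [← h6]
    exact le_emultiplicity_of_pow_dvd h
  apply pow_dvd_of_le_emultiplicity
  have h8 : ((K : ℕ) : ℕ∞) = ((K - b : ℕ) : ℕ∞) + b := by
    rw [← Nat.cast_add, Nat.sub_add_cancel (by omega)]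
  rw [h8] at h7
  have h9 := (ENat.add_le_add_iff_right (ENat.natCast_ne_top b)).mp h7
  refine le_trans ?_ h9
  exact_mod_cast Nat.sub_le_sub_left (Nat.le_succ b) K

variable {G : Type} [Group G] [Fintype G] [DecidableEq G] {m : ℕ}

/-- reduction of the coefficients -/
def red {m' : ℕ} (h : m' ∣ m) : Cov G m →* Cov G m' where
  toFun a := ⟨fun x y => ZMod.castHom h (ZMod m') (a.v x y), a.g, fun y => by
    have h1 := congrArg (ZMod.castHom h (ZMod m')) (a.h y)
    rw [map_sum] at h1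
    simp only [map_sub] at h1
    rw [h1]
    split_ifs <;> simp only [map_one, map_zero]⟩
  map_one' := by
    apply Cov.eq_of
    · intro x y
      show ZMod.castHom h (ZMod m') ((1 : Cov G m).v x y) = (1 : Cov G m').v x y
      rw [Cov.one_v, Cov.one_v, map_zero]
    · rfl
  map_mul' a b := by
    apply Cov.eq_of
    · intro x y
      show ZMod.castHom h (ZMod m') ((a * b).v x y) = _
      rw [Cov.mul_v, map_add]
      rfl
    · rfl

theorem red_v {m' : ℕ} (h : m' ∣ m) (a : Cov G m) (x y : G) :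
    (red h a).v x y = ZMod.castHom h (ZMod m') (a.v x y) := rfl

theorem red_g {m' : ℕ} (h : m' ∣ m) (a : Cov G m) : (red h a).g = a.g := rfl

theorem pr_red {m' : ℕ} (h : m' ∣ m) (a : Cov G m) : Cov.pr (red h a) = Cov.pr a := rfl

theorem red_deep {m' : ℕ} (h : m' ∣ m) (a : Cov G m) (ha : a.g = 1) (N : ℕ) (hN : m' ∣ N) :
    red h (a ^ N) = 1 := by
  apply Cov.eq_of
  · intro x y
    rw [red_v, Cov.pow_v_of_one a ha, map_mul, map_natCast,
      (ZMod.natCast_eq_zero_iff N m').mpr hN, zero_mul, Cov.one_v]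
  · rw [red_g, Cov.pow_g, ha, one_pow, Cov.one_g]

/-- the case of a subgroup with an abelian subgroup of index two -/
theorem index_two [NeZero m] (T : Subgroup (Cov G m)) (hm : Nat.card (T.map Cov.pr) ∣ m)
    (hp2 : IsPGroup 2 (T.map Cov.pr)) (x : Cov G m) (hx : x ∈ T) (T1 : Subgroup (Cov G m))
    (hT1 : ∀ a ∈ T1, ∀ b ∈ T1, a * b = b * a) (hle : T1 ≤ T)
    (hxT1 : ∀ a ∈ T1, x⁻¹ * a * x ∈ T1) (hx2 : x * x ∈ T1)
    (hT : ∀ t ∈ T, t ∈ T1 ∨ x⁻¹ * t ∈ T1) (hcard : 2 ∣ Nat.card (T1.map Cov.pr)) :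
    IsCyclic (T.map Cov.pr) := by
  classical
  set U : Subgroup G := T.map Cov.pr with hU
  set U1 : Subgroup G := T1.map Cov.pr with hU1
  have hUle : U1 ≤ U := Subgroup.map_mono hle
  have hcyc1 : IsCyclic U1 :=
    abelian_cyclic T1 hT1 ((Subgroup.card_dvd_of_le hUle).trans hm)
  by_cases hxU : x.g ∈ U1
  · -- `U = U1`
    have h1 : U = U1 := by
      apply le_antisymm _ hUle
      rintro u ⟨t, ht, rfl⟩
      rcases hT t ht with h | h
      · exact ⟨t, h, rfl⟩
      · have h2 : Cov.pr (x⁻¹ * t) ∈ U1 := ⟨_, h, rfl⟩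
        have h3 := U1.mul_mem hxU h2
        rw [map_mul, map_inv, Cov.pr_apply x, mul_inv_cancel_left] at h3
        exact h3
    rw [h1]
    exact hcyc1
  -- the order of `U`
  have hnot : ∀ t : Cov G m, t ∈ T1 → ¬ (x⁻¹ * t ∈ T1) := by
    intro t ht h
    apply hxU
    have h1 : x ∈ T1 := by
      have h2 := T1.mul_mem ht (T1.inv_mem h)
      rw [mul_inv_rev, inv_inv, mul_inv_cancel_left] at h2
      exact h2
    exact ⟨x, h1, rfl⟩
  have hcU : Nat.card U = 2 * Nat.card U1 := by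
    have h1 : (U1.subgroupOf U).index = 2 := by
      rw [Subgroup.index_eq_two_iff']
      refine ⟨⟨Cov.pr x⁻¹, x⁻¹, T.inv_mem hx, rfl⟩, ?_⟩
      rintro ⟨u, t, ht, rfl⟩
      rw [Subgroup.mem_subgroupOf, Subgroup.mem_subgroupOf]
      show Xor (Cov.pr x⁻¹ * Cov.pr t ∈ U1) (Cov.pr t ∈ U1)
      rcases hT t ht with h | h
      · right
        refine ⟨⟨t, h, rfl⟩, fun h2 => hxU ?_⟩
        have h3 := U1.mul_mem (⟨t, h, rfl⟩ : Cov.pr t ∈ U1) (U1.inv_mem h2)
        rw [mul_inv_rev, mul_inv_cancel_left, map_inv, inv_inv] at h3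
        exact h3
      · left
        have h2 : Cov.pr x⁻¹ * Cov.pr t ∈ U1 := by
          rw [← map_mul]
          exact ⟨_, h, rfl⟩
        refine ⟨h2, fun h3 => hxU ?_⟩
        have h4 := U1.mul_mem h3 (U1.inv_mem h2)
        rw [mul_inv_rev, mul_inv_cancel_left, map_inv, inv_inv] at h4
        exact h4
    have h2 := Subgroup.card_mul_index (U1.subgroupOf U)
    rw [h1] at h2
    have h3 : Nat.card (U1.subgroupOf U) = Nat.card U1 :=
      Nat.card_congr (Subgroup.subgroupOfEquivOfLe hUle).toEquiv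
    rw [h3] at h2
    rw [← h2, mul_comm]
  by_contra hncyc
  set N := Nat.card U1 with hN
  have hNpos : 0 < N := Nat.card_pos
  -- the exponent of `U` divides `N`
  have hexp : ∀ t ∈ T, t.g ^ N = 1 := by
    intro t ht
    set u : U := ⟨Cov.pr t, t, ht, rfl⟩ with hu
    obtain ⟨i, hi⟩ := (IsPGroup.iff_orderOf (p := 2) (G := U)).mp hp2 u
    obtain ⟨j, hj⟩ := (IsPGroup.iff_card (p := 2) (G := U)).mp hp2
    have h1 : orderOf u ∣ Nat.card U := orderOf_dvd_natCard u
    have h2 : orderOf u ≠ Nat.card U := by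
      intro h3
      exact hncyc (isCyclic_of_orderOf_eq_card u h3)
    rw [hi, hj] at h1 h2
    have h3 : i ≤ j := (Nat.pow_dvd_pow_iff_le_right (by norm_num)).mp h1
    have h4 : i < j := lt_of_le_of_ne h3 (fun h => h2 (by rw [h]))
    have h5 : orderOf u ∣ N := by
      obtain ⟨j', rfl⟩ : ∃ j', j = j' + 1 := ⟨j - 1, by omega⟩
      have h6 : N = 2 ^ j' := by
        rw [hcU, pow_succ'] at hj
        omega
      rw [hi, h6]
      exact pow_dvd_pow 2 (by omega)
    have h6 : u ^ N = 1 := orderOf_dvd_iff_pow_eq_one.mp h5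
    exact congrArg Subtype.val h6
  obtain ⟨N', hN'⟩ := hcard
  have hxN : x ^ N ∈ T1 := by
    rw [hN', pow_mul, sq]
    exact T1.pow_mem hx2 _
  have hcomm : ∀ a ∈ T1, ∀ b ∈ T1, Commute a b := hT1
  have hconjN : ∀ a : Cov G m, (x⁻¹ * a * x) ^ N = x⁻¹ * a ^ N * x := by
    intro a
    have h1 := conj_pow (i := N) (a := x⁻¹) (b := a)
    rw [inv_inv] at h1
    exact h1
  have key := crossed_dvd T hm N
    (fun t => if t ∈ T1 then t ^ N else x ^ N * (x⁻¹ * t) ^ N) ?_ ?_ ?_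
  · rw [← hU, hcU] at key
    have := Nat.le_of_dvd hNpos key
    omega
  · intro t ht
    split_ifs with h
    · rw [Cov.pow_g]
      exact hexp t ht
    · rw [Cov.mul_g, Cov.pow_g, Cov.pow_g, hexp x hx, hexp _ (T.mul_mem (T.inv_mem hx) ht), mul_one]
  · intro t ht t' ht'
    by_cases h : t ∈ T1
    · by_cases h' : t' ∈ T1
      · rw [if_pos h, if_pos h', if_pos (T1.mul_mem h h'), (hcomm t h t' h').mul_pow]
        congr 1
        rw [mul_assoc, ((hcomm t h t' h').pow_left N).eq, inv_mul_cancel_left]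
      · have hs' : x⁻¹ * t' ∈ T1 := (hT t' ht').resolve_left h'
        have h2 : t * t' ∉ T1 := by
          intro h3
          apply h'
          have h4 := T1.mul_mem (T1.inv_mem h) h3
          rwa [inv_mul_cancel_left] at h4
        rw [if_pos h, if_neg h', if_neg h2]
        set s' := x⁻¹ * t' with hs'def
        have e1 : t' = x * s' := by rw [hs'def, mul_inv_cancel_left]
        have e2 : x⁻¹ * (t * t') = (x⁻¹ * t * x) * s' := by
          rw [e1]
          group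
        have h3 := hxT1 t h
        have h4 : x⁻¹ * t ^ N * x ∈ T1 := hxT1 _ (T1.pow_mem h N)
        rw [e2, (hcomm _ h3 _ hs').mul_pow, hconjN]
        have e3 : t'⁻¹ * t ^ N * t' = x⁻¹ * t ^ N * x := by
          rw [e1]
          have e4 : (x * s')⁻¹ * t ^ N * (x * s') = s'⁻¹ * (x⁻¹ * t ^ N * x) * s' := by group
          rw [e4, mul_assoc, (hcomm _ h4 _ hs').eq, inv_mul_cancel_left]
        rw [e3, ← mul_assoc (x ^ N), (hcomm _ hxN _ h4).eq, mul_assoc _ (x ^ N)]
    · have hs : x⁻¹ * t ∈ T1 := (hT t ht).resolve_left h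
      set s := x⁻¹ * t with hsdef
      have e0 : t = x * s := by rw [hsdef, mul_inv_cancel_left]
      by_cases h' : t' ∈ T1
      · have h2 : t * t' ∉ T1 := by
          intro h3
          apply h
          have h4 := T1.mul_mem h3 (T1.inv_mem h')
          rwa [mul_inv_cancel_right] at h4
        rw [if_neg h, if_pos h', if_neg h2]
        have e1 : x⁻¹ * (t * t') = s * t' := by rw [hsdef, mul_assoc]
        have h3 : x ^ N * s ^ N ∈ T1 := T1.mul_mem hxN (T1.pow_mem hs N)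
        rw [e1, (hcomm _ hs _ h').mul_pow]
        have e2 : t'⁻¹ * (x ^ N * s ^ N) * t' = x ^ N * s ^ N := by
          rw [mul_assoc, (hcomm _ h3 _ h').eq, inv_mul_cancel_left]
        rw [e2, mul_assoc]
      · have hs' : x⁻¹ * t' ∈ T1 := (hT t' ht').resolve_left h'
        set s' := x⁻¹ * t' with hs'def
        have e1 : t' = x * s' := by rw [hs'def, mul_inv_cancel_left]
        have e2 : t * t' = (x * x) * (x⁻¹ * s * x) * s' := by
          rw [e0, e1]
          group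
        have h3 := hxT1 s hs
        have h2 : t * t' ∈ T1 := by
          rw [e2]
          exact T1.mul_mem (T1.mul_mem hx2 h3) hs'
        rw [if_neg h, if_neg h', if_pos h2]
        have h4 : x⁻¹ * s ^ N * x ∈ T1 := hxT1 _ (T1.pow_mem hs N)
        have e3 : (t * t') ^ N = x ^ N * x ^ N * (x⁻¹ * s ^ N * x) * s' ^ N := by
          rw [e2, (hcomm _ (T1.mul_mem hx2 h3) _ hs').mul_pow, (hcomm _ hx2 _ h3).mul_pow, hconjN,
            (Commute.refl x).mul_pow]
        have e4 : t'⁻¹ * (x ^ N * s ^ N) * t' = x ^ N * (x⁻¹ * s ^ N * x) := by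
          have e5 : t'⁻¹ * (x ^ N * s ^ N) * t' =
              s'⁻¹ * ((x⁻¹ * x ^ N * x) * (x⁻¹ * s ^ N * x)) * s' := by
            rw [e1]
            group
          have e6 : x⁻¹ * x ^ N * x = x ^ N := by
            rw [mul_assoc, ← pow_succ, pow_succ', inv_mul_cancel_left]
          rw [e5, e6, mul_assoc s'⁻¹, (hcomm _ (T1.mul_mem hxN h4) _ hs').eq, inv_mul_cancel_left]
        rw [e3, e4]
        have e7 : x ^ N * (x⁻¹ * s ^ N * x) * (x ^ N * s' ^ N) =
            x ^ N * ((x⁻¹ * s ^ N * x) * x ^ N) * s' ^ N := by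
          simp only [mul_assoc]
        rw [e7, (hcomm _ h4 _ hxN).eq]
        simp only [mul_assoc]
  · intro t ht h1
    have h2 : t ∈ T1 := by
      by_contra h
      have hs : x⁻¹ * t ∈ T1 := (hT t ht).resolve_left h
      apply hxU
      have h3 : (x⁻¹ * t).g ∈ U1 := ⟨_, hs, rfl⟩
      rw [Cov.mul_g, Cov.inv_g, h1, mul_one] at h3
      exact (inv_inv x.g) ▸ U1.inv_mem h3
    rw [if_pos h2]

end Run7.h456.IG
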