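import Mathlib
import Pool.Agent.Run7.h456.IG.Ord

/-!
# The tame relation in `Cov G m`
-/

set_option autoImplicit false

namespace Run7.h456.IG

theorem conj_pow_of {Q : Type} [Group Q] (s t : Q) (q : ℕ) (h : s * t * s⁻¹ = t ^ q) (j : ℕ) :
    s ^ j * t * (s ^ j)⁻¹ = t ^ q ^ j := by
  induction j with
  | zero => simp
  | succ n ih =>
    have h1 : s ^ (n + 1) * t * (s ^ (n + 1))⁻¹ = s * (s ^ n * t * (s ^ n)⁻¹) * s⁻¹ := by
      rw [pow_succ', mul_inv_rev]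
      group
    rw [h1, ih, ← conj_pow, h, ← pow_mul, pow_succ']

theorem tame_rel {H G : Type} [Group H] [Finite H] [Group G] (π : H →* G)
    (hker : ∀ a b, π a = 1 → π b = 1 → a * b = b * a) (W : Subgroup H) (p q : ℕ)
    (hp : p.Prime) (hW : IsPGroup p W) (s t : H) (hs : s ∈ Subgroup.normalizer (W : Set H))
    (ht : t ∈ Subgroup.normalizer (W : Set H)) (hrel : (t ^ q)⁻¹ * (s * t * s⁻¹) ∈ W)
    (hcop : (orderOf t).Coprime p) (hq : 0 < q) :
    t ^ (orderOf (π t) * (q ^ orderOf (π s) - 1)) = 1 := by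
  set K : Subgroup H := Subgroup.normalizer (W : Set H) with hK
  have hn : (W.subgroupOf K).Normal := inferInstance
  let s' : K := ⟨s, hs⟩
  let t' : K := ⟨t, ht⟩
  have h1 : ((s' : K ⧸ W.subgroupOf K)) * (t' : K ⧸ W.subgroupOf K) * (s' : K ⧸ W.subgroupOf K)⁻¹ =
      (t' : K ⧸ W.subgroupOf K) ^ q := by
    rw [← QuotientGroup.mk_mul, ← QuotientGroup.mk_inv, ← QuotientGroup.mk_mul,
      ← QuotientGroup.mk_pow, eq_comm, QuotientGroup.eq, Subgroup.mem_subgroupOf]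
    exact hrel
  set e := orderOf (π t) with he
  set f := orderOf (π s) with hf
  have h2 := conj_pow_of _ _ q h1 f
  have h3 : s ^ f * t ^ e = t ^ e * s ^ f := by
    apply hker
    · rw [map_pow, hf, pow_orderOf_eq_one]
    · rw [map_pow, he, pow_orderOf_eq_one]
  have h4 : (t' : K ⧸ W.subgroupOf K) ^ e = (t' : K ⧸ W.subgroupOf K) ^ (q ^ f * e) := by
    have h5 : (s' ^ f * t' ^ e * (s' ^ f)⁻¹ : K) = t' ^ e := by
      apply Subtype.ext
      show s ^ f * t ^ e * (s ^ f)⁻¹ = t ^ e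
      rw [h3, mul_inv_cancel_right]
    rw [pow_mul, ← h2, conj_pow, ← QuotientGroup.mk_pow, ← QuotientGroup.mk_pow,
      ← QuotientGroup.mk_mul, ← QuotientGroup.mk_inv, ← QuotientGroup.mk_mul, h5]
  have hqf : 0 < q ^ f := pow_pos hq f
  have h6 : t ^ (e * (q ^ f - 1)) ∈ W := by
    have h7 : (t' : K ⧸ W.subgroupOf K) ^ (e * (q ^ f - 1)) = 1 := by
      have h8 : q ^ f * e = e * (q ^ f - 1) + e := by
        rw [Nat.mul_sub, mul_one, Nat.sub_add_cancel (Nat.le_mul_of_pos_right e hqf), mul_comm]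
      rw [h8, pow_add] at h4
      exact (mul_eq_right.mp h4.symm)
    rw [← QuotientGroup.mk_pow, QuotientGroup.eq_one_iff, Subgroup.mem_subgroupOf] at h7
    exact h7
  obtain ⟨j, hj⟩ := hW ⟨_, h6⟩
  have h9 : (t ^ (e * (q ^ f - 1))) ^ p ^ j = 1 := congrArg Subtype.val hj
  have h10 : orderOf (t ^ (e * (q ^ f - 1))) ∣ p ^ j := orderOf_dvd_of_pow_eq_one h9
  have h11 : orderOf (t ^ (e * (q ^ f - 1))) ∣ orderOf t := orderOf_pow_dvd _
  have h12 : orderOf (t ^ (e * (q ^ f - 1))) = 1 :=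
    Nat.eq_one_of_dvd_coprimes (Nat.Coprime.pow_right j hcop) h11 h10
  exact orderOf_eq_one_iff.mp h12

theorem cov_tame {G : Type} [Group G] [Fintype G] [DecidableEq G] {m : ℕ} [NeZero m]
    (W : Subgroup (Cov G m)) (p q k l : ℕ) (hp : p.Prime) (hW : IsPGroup p W)
    (hl : l.Prime) (hm : l ^ k ∣ m) (s t : Cov G m)
    (hs : s ∈ Subgroup.normalizer (W : Set (Cov G m)))
    (ht : t ∈ Subgroup.normalizer (W : Set (Cov G m))) (hrel : (t ^ q)⁻¹ * (s * t * s⁻¹) ∈ W)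
    (hcop : (orderOf t).Coprime p) (hq : 0 < q) (hlt : l ∣ orderOf (Cov.pr t)) :
    l ^ k ∣ q ^ Fintype.card G - 1 := by
  have h1 := tame_rel (Cov.pr : Cov G m →* G) (fun a b => Cov.ker_comm a b) W p q hp hW s t hs ht
    hrel hcop hq
  have h2 : l ^ k ∣ q ^ orderOf (Cov.pr s) - 1 := order_grows l k _ hl hm t hlt h1
  refine dvd_trans h2 ?_
  obtain ⟨j, hj⟩ := (orderOf_dvd_card : orderOf (Cov.pr s) ∣ Fintype.card G)
  rw [hj, pow_mul]
  exact Nat.sub_one_dvd_pow_sub_one _ _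

end Run7.h456.IG
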