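import Mathlib
import Pool.Agent.Run7.h456.IG.Metacyc
import Pool.Agent.Run7.h456.IG.Tame

/-!
# Metacyclic subgroups of prime power order of `Cov G m` have cyclic images in `G`
-/

set_option autoImplicit false

namespace Run7.h456.IG

theorem closure_pair_comm {H : Type} [Group H] {a b : H} (hab : a * b = b * a) :
    ∀ s ∈ Subgroup.closure {a, b}, ∀ t ∈ Subgroup.closure {a, b}, s * t = t * s := by
  have h1 : Subgroup.closure {a, b} ≤ Subgroup.centralizer {a, b} := by
    rw [Subgroup.closure_le]
    rintro c hc d hd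
    rcases hc with rfl | hc <;> rcases hd with rfl | hd
    · rfl
    · rw [Set.mem_singleton_iff] at hd
      subst hd
      exact hab.symm
    · rw [Set.mem_singleton_iff] at hc
      subst hc
      exact hab
    · rw [Set.mem_singleton_iff] at hc hd
      subst hc
      subst hd
      rfl
  intro s hs t ht
  have h2 : Subgroup.closure {a, b} ≤ Subgroup.centralizer {s} := by
    rw [Subgroup.closure_le]
    intro c hc d hd
    rw [Set.mem_singleton_iff] at hd
    subst hd
    exact (h1 hs c hc).symm
  exact h2 ht s (Set.mem_singleton s)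

variable {G : Type} [Group G] [Fintype G] [DecidableEq G] {m : ℕ}

theorem metacyclic_cyclic [NeZero m] (l c : ℕ) (hl : l.Prime)
    (hc : ∀ U : Subgroup G, IsPGroup l U → Nat.card U ∣ l ^ c) (hm : l ^ (3 * c) ∣ m)
    (x τ : Cov G m) (r : ℕ) (hr : x * τ * x⁻¹ = τ ^ r)
    (hp : IsPGroup l (Subgroup.closure {x, τ} : Subgroup (Cov G m))) :
    IsCyclic ((Subgroup.closure {x, τ}).map Cov.pr) := by
  classical
  have hlF : Fact l.Prime := ⟨hl⟩
  have hUp : IsPGroup l ((Subgroup.closure {x, τ}).map Cov.pr) := hp.map _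
  have hxm : x ∈ Subgroup.closure {x, τ} := Subgroup.subset_closure (Set.mem_insert _ _)
  have hτm : τ ∈ Subgroup.closure {x, τ} :=
    Subgroup.subset_closure (Set.mem_insert_of_mem _ (Set.mem_singleton _))
  by_cases hτ1 : τ.g = 1
  · have h1 : (Subgroup.closure {x, τ}).map Cov.pr = Subgroup.zpowers x.g := by
      rw [MonoidHom.map_closure, Set.image_pair, Cov.pr_apply, Cov.pr_apply, hτ1]
      apply le_antisymm
      · rw [Subgroup.closure_le]
        rintro y (rfl | hy)
        · exact Subgroup.mem_zpowers _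
        · rw [Set.mem_singleton_iff] at hy
          subst hy
          exact Subgroup.one_mem _
      · rw [Subgroup.zpowers_le]
        exact Subgroup.subset_closure (Set.mem_insert _ _)
    rw [h1]
    infer_instance
  -- the orders
  have hord : ∀ t ∈ Subgroup.closure {x, τ}, ∃ a, a ≤ c ∧ orderOf t.g = l ^ a := by
    intro t ht
    have h1 : IsPGroup l (Subgroup.zpowers t.g) :=
      hUp.to_le (by
        rw [Subgroup.zpowers_le]
        exact ⟨t, ht, rfl⟩)
    have h2 := hc _ h1
    rw [Nat.card_zpowers] at h2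
    obtain ⟨a, ha, hoa⟩ := (Nat.dvd_prime_pow hl).mp h2
    exact ⟨a, ha, hoa⟩
  obtain ⟨a, hac, ha⟩ := hord τ hτm
  obtain ⟨b, hbc, hb⟩ := hord x hxm
  have ha1 : a ≠ 0 := by
    rintro rfl
    rw [pow_zero, orderOf_eq_one_iff] at ha
    exact hτ1 ha
  have hla : l ∣ orderOf τ.g := by
    rw [ha]
    exact dvd_pow_self l ha1
  obtain ⟨n', hn'⟩ : orderOf τ.g ∣ orderOf τ := by
    rw [← Cov.pr_apply]
    exact orderOf_map_dvd Cov.pr τ
  have hgrow : l ^ (3 * c) ∣ n' :=
    order_grows l (3 * c) n' hl hm τ hla (by rw [← hn', pow_orderOf_eq_one])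
  have hr0 : 0 < r := by
    rcases Nat.eq_zero_or_pos r with h | h
    · exfalso
      rw [h, pow_zero, mul_inv_eq_one, mul_eq_left] at hr
      apply hτ1
      rw [hr]
      rfl
    · exact h
  have hcommk : x ^ orderOf x.g * τ ^ orderOf τ.g = τ ^ orderOf τ.g * x ^ orderOf x.g := by
    apply Cov.ker_comm
    · rw [map_pow, Cov.pr_apply, pow_orderOf_eq_one]
    · rw [map_pow, Cov.pr_apply, pow_orderOf_eq_one]
  have hdiv : l ^ (3 * c) ∣ r ^ l ^ b - 1 := by
    have h1 := conj_pow_of x τ r hr (orderOf x.g)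
    have h2 : x ^ orderOf x.g * τ ^ orderOf τ.g * (x ^ orderOf x.g)⁻¹ = τ ^ orderOf τ.g := by
      rw [hcommk, mul_inv_cancel_right]
    rw [← conj_pow, h1, ← pow_mul] at h2
    have h3 : τ ^ (orderOf τ.g * (r ^ orderOf x.g - 1)) = 1 := by
      have h4 : r ^ orderOf x.g * orderOf τ.g =
          orderOf τ.g * (r ^ orderOf x.g - 1) + orderOf τ.g := by
        rw [Nat.mul_sub, mul_one,
          Nat.sub_add_cancel (Nat.le_mul_of_pos_right _ (pow_pos hr0 _)), mul_comm]
      rw [h4, pow_add] at h2
      exact mul_eq_right.mp h2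
    have h4 := orderOf_dvd_of_pow_eq_one h3
    rw [hn'] at h4
    have h5 := Nat.dvd_of_mul_dvd_mul_left (orderOf_pos τ.g) h4
    rw [hb] at h5
    exact hgrow.trans h5
  have hdivZ : (l : ℤ) ^ (3 * c) ∣ (r : ℤ) ^ l ^ b - 1 := by
    have h1 : 1 ≤ r ^ l ^ b := Nat.one_le_pow _ _ hr0
    have h2 : ((l ^ (3 * c) : ℕ) : ℤ) ∣ ((r ^ l ^ b - 1 : ℕ) : ℤ) := by exact_mod_cast hdiv
    rw [Nat.cast_sub h1] at h2
    exact_mod_cast h2
  -- reduction modulo `l ^ c`
  have hm' : l ^ c ∣ m := (pow_dvd_pow l (by omega)).trans hm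
  have : NeZero (l ^ c) := ⟨pow_ne_zero _ hl.ne_zero⟩
  have hcomm : ∀ j : ℕ, l ^ (2 * c) ∣ r ^ j - 1 →
      red hm' x ^ j * red hm' τ = red hm' τ * red hm' x ^ j := by
    intro j hj
    have h1 := conj_pow_of x τ r hr j
    obtain ⟨w, hw⟩ := hj
    have h2 : r ^ j = 1 + orderOf τ.g * (l ^ (2 * c - a) * w) := by
      have h3 : 1 ≤ r ^ j := Nat.one_le_pow _ _ hr0
      rw [ha, ← mul_assoc, ← pow_add, Nat.add_sub_cancel' (by omega : a ≤ 2 * c), ← hw]
      omega
    rw [h2, pow_add, pow_one, pow_mul] at h1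
    have h3 := congrArg (red hm') h1
    have h4 : red hm' ((τ ^ orderOf τ.g) ^ (l ^ (2 * c - a) * w)) = 1 := by
      apply red_deep
      · rw [Cov.pow_g, pow_orderOf_eq_one]
      · exact Dvd.dvd.mul_right (pow_dvd_pow l (by omega)) w
    rw [map_mul, map_mul, map_mul, map_inv, map_pow, h4, mul_one, mul_inv_eq_iff_eq_mul] at h3
    exact h3
  have hmapred : ((Subgroup.closure {x, τ}).map (red hm')).map Cov.pr =
      (Subgroup.closure {x, τ}).map Cov.pr := by
    rw [Subgroup.map_map]
    rfl
  have hclred : (Subgroup.closure {x, τ}).map (red hm') =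
      Subgroup.closure {red hm' x, red hm' τ} := by
    rw [MonoidHom.map_closure, Set.image_pair]
  rw [← hmapred, hclred]
  rw [← hmapred, hclred] at hUp
  have hcard := hc _ hUp
  rcases eq_or_ne l 2 with rfl | hl2
  · -- `l = 2`
    have h1 := lte_two (3 * c) b r (by exact_mod_cast hdivZ)
    have h2 : 2 ^ (2 * c) ∣ r ^ 2 - 1 := by
      have h3 : 1 ≤ r ^ 2 := Nat.one_le_pow _ _ hr0
      have h4 : ((2 ^ (2 * c) : ℕ) : ℤ) ∣ ((r ^ 2 - 1 : ℕ) : ℤ) := by
        rw [Nat.cast_sub h3]
        push_cast
        exact (pow_dvd_pow 2 (by omega)).trans h1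
      exact_mod_cast h4
    have h3 := hcomm 2 h2
    set X := red hm' x with hX
    set Y := red hm' τ with hY
    have hXXm : X * X ∈ Subgroup.closure {X * X, Y} :=
      Subgroup.subset_closure (Set.mem_insert _ _)
    have hYm : Y ∈ Subgroup.closure {X * X, Y} :=
      Subgroup.subset_closure (Set.mem_insert_of_mem _ (Set.mem_singleton _))
    have hXm : X ∈ Subgroup.closure {X, Y} := Subgroup.subset_closure (Set.mem_insert _ _)
    have hYm' : Y ∈ Subgroup.closure {X, Y} :=
      Subgroup.subset_closure (Set.mem_insert_of_mem _ (Set.mem_singleton _))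
    have hXY : X * Y * X⁻¹ = Y ^ r := by
      have h4 := congrArg (red hm') hr
      rwa [map_mul, map_mul, map_inv, map_pow] at h4
    have hconjY : X⁻¹ * Y * X ∈ Subgroup.closure {X * X, Y} := by
      have h4 : X⁻¹ * Y * X = (X * X)⁻¹ * (X * Y * X⁻¹) * (X * X) := by group
      rw [h4, hXY]
      exact Subgroup.mul_mem _ (Subgroup.mul_mem _ (Subgroup.inv_mem _ hXXm)
        (Subgroup.pow_mem _ hYm r)) hXXm
    have hconj : ∀ t ∈ Subgroup.closure {X * X, Y}, X⁻¹ * t * X ∈ Subgroup.closure {X * X, Y} := by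
      have h4 : Subgroup.closure {X * X, Y} ≤
          (Subgroup.closure {X * X, Y}).comap (MulAut.conj X⁻¹).toMonoidHom := by
        rw [Subgroup.closure_le]
        rintro t (rfl | ht)
        · show X⁻¹ * (X * X) * X⁻¹⁻¹ ∈ Subgroup.closure {X * X, Y}
          rw [inv_mul_cancel_left, inv_inv]
          exact hXXm
        · rw [Set.mem_singleton_iff] at ht
          subst ht
          show X⁻¹ * Y * X⁻¹⁻¹ ∈ Subgroup.closure {X * X, Y}
          rw [inv_inv]
          exact hconjY
      intro t ht
      have h5 := h4 ht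
      have h6 : X⁻¹ * t * X⁻¹⁻¹ ∈ Subgroup.closure {X * X, Y} := h5
      rwa [inv_inv] at h6
    apply index_two (Subgroup.closure {X, Y}) hcard hUp X hXm (Subgroup.closure {X * X, Y})
      (closure_pair_comm (by rw [← sq]; exact h3))
    · rw [Subgroup.closure_le]
      rintro t (rfl | ht)
      · exact Subgroup.mul_mem _ hXm hXm
      · rw [Set.mem_singleton_iff] at ht
        subst ht
        exact hYm'
    · exact hconj
    · exact hXXm
    · intro t ht
      induction ht using Subgroup.closure_induction_left with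
      | one => exact Or.inl (Subgroup.one_mem _)
      | mul_left u hu y hy ih =>
        rcases hu with rfl | hu
        · rcases ih with ih | ih
          · right
            rwa [inv_mul_cancel_left]
          · left
            have h4 := Subgroup.mul_mem _ hXXm ih
            rwa [mul_assoc, mul_inv_cancel_left] at h4
        · rw [Set.mem_singleton_iff] at hu
          subst hu
          rcases ih with ih | ih
          · left
            exact Subgroup.mul_mem _ hYm ih
          · right
            have h4 := Subgroup.mul_mem _ hconjY ih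
            have h5 : X⁻¹ * (Y * y) = X⁻¹ * Y * X * (X⁻¹ * y) := by group
            rw [h5]
            exact h4
      | inv_mul_cancel u hu y hy ih =>
        rcases hu with rfl | hu
        · rcases ih with ih | ih
          · right
            have h4 := Subgroup.mul_mem _ (Subgroup.inv_mem _ hXXm) ih
            have h5 : X⁻¹ * (X⁻¹ * y) = (X * X)⁻¹ * y := by group
            rw [h5]
            exact h4
          · left
            exact ih
        · rw [Set.mem_singleton_iff] at hu
          subst hu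
          rcases ih with ih | ih
          · left
            exact Subgroup.mul_mem _ (Subgroup.inv_mem _ hYm) ih
          · right
            have h4 := Subgroup.mul_mem _ (Subgroup.inv_mem _ hconjY) ih
            have h5 : X⁻¹ * (Y⁻¹ * y) = (X⁻¹ * Y * X)⁻¹ * (X⁻¹ * y) := by group
            rw [h5]
            exact h4
    · have h4 : τ.g ∈ (Subgroup.closure {X * X, Y}).map Cov.pr := ⟨Y, hYm, rfl⟩
      have h5 := Subgroup.orderOf_dvd_natCard _ h4
      exact hla.trans h5
  · -- `l` odd
    have h1 := lte_odd l hl hl2 (3 * c) b r hdivZ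
    have h2 : l ^ (2 * c) ∣ r ^ 1 - 1 := by
      have h3 : 1 ≤ r := hr0
      rw [pow_one]
      have h4 : ((l ^ (2 * c) : ℕ) : ℤ) ∣ ((r - 1 : ℕ) : ℤ) := by
        rw [Nat.cast_sub h3]
        push_cast
        exact (pow_dvd_pow (l : ℤ) (by omega)).trans h1
      exact_mod_cast h4
    have h3 := hcomm 1 h2
    rw [pow_one] at h3
    exact abelian_cyclic _ (closure_pair_comm h3) hcard

end Run7.h456.IG
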