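import Mathlib

/-!
# The wild inertia group and the tame relation
-/

set_option autoImplicit false

namespace Run7.h456.IG

open scoped Pointwise

section act

variable {S : Type} [CommRing S] {Γ : Type} [Group Γ] [MulSemiringAction Γ S]

theorem smul_mem_of_stab {P : Ideal S} {σ : Γ} (hσ : σ ∈ MulAction.stabilizer Γ P) {y : S}
    (hy : y ∈ P) : σ • y ∈ P := by
  have h : σ • y ∈ σ • P := Ideal.smul_mem_pointwise_smul σ y P hy
  rwa [MulAction.mem_stabilizer_iff.mp hσ] at h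

theorem pow_stab {P : Ideal S} {σ : Γ} (hσ : σ ∈ MulAction.stabilizer Γ P) (n : ℕ) :
    σ ∈ MulAction.stabilizer Γ (P ^ n) := by
  rw [MulAction.mem_stabilizer_iff] at hσ ⊢
  rw [Ideal.pointwise_smul_def, Ideal.map_pow, ← Ideal.pointwise_smul_def, hσ]

theorem smul_mem_pow {P : Ideal S} {σ : Γ} (hσ : σ ∈ MulAction.stabilizer Γ P) {n : ℕ} {y : S}
    (hy : y ∈ P ^ n) : σ • y ∈ P ^ n :=
  smul_mem_of_stab (pow_stab hσ n) hy

/-- the elements of the inertia group which act trivially on `P / P ^ 2` -/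
def wild (P : Ideal S) (Γ : Type) [Group Γ] [MulSemiringAction Γ S] : Subgroup Γ where
  carrier := {σ | σ ∈ P.inertia Γ ∧ ∀ y ∈ P, σ • y - y ∈ P ^ 2}
  one_mem' := ⟨Subgroup.one_mem _, fun y _ => by simp⟩
  mul_mem' := by
    rintro a b ⟨ha, ha2⟩ ⟨hb, hb2⟩
    refine ⟨Subgroup.mul_mem _ ha hb, fun y hy => ?_⟩
    have h1 := ha2 (b • y) (smul_mem_of_stab (Ideal.inertia_le_stabilizer P hb) hy)
    have h2 := hb2 y hy
    have h3 : (a * b) • y - y = (a • (b • y) - b • y) + (b • y - y) := by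
      rw [mul_smul]
      ring
    rw [h3]
    exact add_mem h1 h2
  inv_mem' := by
    rintro a ⟨ha, ha2⟩
    refine ⟨Subgroup.inv_mem _ ha, fun y hy => ?_⟩
    have ha' := Subgroup.inv_mem _ (Ideal.inertia_le_stabilizer P ha)
    have h1 := ha2 (a⁻¹ • y) (smul_mem_of_stab ha' hy)
    rw [smul_inv_smul] at h1
    have h2 : a⁻¹ • y - y = - (y - a⁻¹ • y) := by ring
    rw [h2]
    exact neg_mem h1

theorem mem_wild {P : Ideal S} {σ : Γ} :
    σ ∈ wild P Γ ↔ σ ∈ P.inertia Γ ∧ ∀ y ∈ P, σ • y - y ∈ P ^ 2 := Iff.rfl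

theorem conj_inertia {P : Ideal S} {s t : Γ} (hs : s ∈ MulAction.stabilizer Γ P)
    (ht : t ∈ P.inertia Γ) : s * t * s⁻¹ ∈ P.inertia Γ := by
  intro x
  have h1 : s • (t • (s⁻¹ • x) - s⁻¹ • x) ∈ P := smul_mem_of_stab hs (ht _)
  rw [smul_sub, smul_inv_smul] at h1
  rw [mul_smul, mul_smul]
  exact h1

theorem conj_wild {P : Ideal S} {s t : Γ} (hs : s ∈ MulAction.stabilizer Γ P)
    (ht : t ∈ wild P Γ) : s * t * s⁻¹ ∈ wild P Γ := by
  refine ⟨conj_inertia hs ht.1, fun y hy => ?_⟩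
  have hs' := Subgroup.inv_mem _ hs
  have h1 : s • (t • (s⁻¹ • y) - s⁻¹ • y) ∈ P ^ 2 :=
    smul_mem_pow hs (ht.2 _ (smul_mem_of_stab hs' hy))
  rw [smul_sub, smul_inv_smul] at h1
  rw [mul_smul, mul_smul]
  exact h1

theorem stab_le_normalizer (P : Ideal S) {s : Γ} (hs : s ∈ MulAction.stabilizer Γ P) :
    s ∈ Subgroup.normalizer (wild P Γ : Set Γ) := by
  intro n
  constructor
  · intro hn
    exact conj_wild hs hn
  · intro hn
    have h1 := conj_wild (Subgroup.inv_mem _ hs) hn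
    have h2 : s⁻¹ * (s * n * s⁻¹) * s⁻¹⁻¹ = n := by group
    rw [h2] at h1
    exact h1

/-- an element of the wild group acts trivially on `P ^ j / P ^ (j + 1)` -/
theorem wild_pow {P : Ideal S} {σ : Γ} (hσ : σ ∈ wild P Γ) (j : ℕ) :
    ∀ y ∈ P ^ (j + 1), σ • y - y ∈ P ^ (j + 2) := by
  induction j with
  | zero => intro y hy; rw [zero_add, pow_one] at hy; exact hσ.2 y hy
  | succ n ih =>
    intro y hy
    rw [pow_succ'] at hy
    refine Submodule.mul_induction_on hy ?_ ?_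
    · intro a ha b hb
      have h1 : σ • (a * b) - a * b = (σ • a) * (σ • b - b) + (σ • a - a) * b := by
        rw [smul_mul']
        ring
      rw [h1]
      have h2 : σ • a ∈ P := smul_mem_of_stab (Ideal.inertia_le_stabilizer P hσ.1) ha
      have h3 : (σ • a) * (σ • b - b) ∈ P * P ^ (n + 2) := Ideal.mul_mem_mul h2 (ih b hb)
      have h4 : (σ • a - a) * b ∈ P ^ 2 * P ^ (n + 1) := Ideal.mul_mem_mul (hσ.2 a ha) hb
      rw [← pow_succ'] at h3
      rw [← pow_add] at h4
      have h5 : 2 + (n + 1) = n + 1 + 2 := by ring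
      rw [h5] at h4
      exact add_mem h3 h4
    · intro a b ha hb
      have h1 : σ • (a + b) - (a + b) = (σ • a - a) + (σ • b - b) := by
        rw [smul_add]
        ring
      rw [h1]
      exact add_mem ha hb

end act

section dedekind

variable {S : Type} [CommRing S] [IsDedekindDomain S] {Γ : Type} [Group Γ]
  [MulSemiringAction Γ S]

theorem wild_trivial {P : Ideal S} [hP : P.IsPrime] {σ : Γ} (hσ : σ ∈ wild P Γ) {p r : ℕ}
    (hp : (p : S) ∈ P) (hr : r.Coprime p) (hσr : σ ^ r = 1) (x : S) : σ • x = x := by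
  have hstab := Ideal.inertia_le_stabilizer P hσ.1
  have hrP : (r : S) ∉ P := by
    intro h
    apply hP.ne_top
    rw [Ideal.eq_top_iff_one]
    have h1 := Nat.gcd_eq_gcd_ab r p
    rw [hr] at h1
    have h2 : (1 : S) = (r : S) * ((r.gcdA p : ℤ) : S) + (p : S) * ((r.gcdB p : ℤ) : S) := by
      have := congrArg (fun z : ℤ => (z : S)) h1
      push_cast at this
      simpa using this
    rw [h2]
    exact add_mem (Ideal.mul_mem_right _ _ h) (Ideal.mul_mem_right _ _ hp)
  have key : ∀ k : ℕ, ∀ x : S, σ • x - x ∈ P ^ (k + 1) := by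
    intro k
    induction k with
    | zero => intro x; rw [zero_add, pow_one]; exact hσ.1 x
    | succ k ih =>
      intro x
      set d := σ • x - x with hd
      have h1 : ∀ j : ℕ, σ ^ j • d - d ∈ P ^ (k + 2) := by
        intro j
        induction j with
        | zero => simp
        | succ j ihj =>
          have h2 : σ ^ (j + 1) • d - d = σ • (σ ^ j • d - d) + (σ • d - d) := by
            rw [pow_succ', mul_smul, smul_sub σ (σ ^ j • d) d]
            ring
          rw [h2]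
          exact add_mem (smul_mem_pow hstab ihj) (wild_pow hσ k d (ih x))
      have h2 : ∑ j ∈ Finset.range r, σ ^ j • d = 0 := by
        have h3 : ∀ n : ℕ, ∑ j ∈ Finset.range n, σ ^ j • d = σ ^ n • x - x := by
          intro n
          induction n with
          | zero => simp
          | succ n ihn =>
            rw [Finset.sum_range_succ, ihn, hd, smul_sub, ← mul_smul, ← pow_succ]
            ring
        rw [h3, hσr, one_smul, sub_self]
      have h3 : (r : S) * d ∈ P ^ (k + 2) := by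
        have h4 : (r : S) * d = - ∑ j ∈ Finset.range r, (σ ^ j • d - d) := by
          rw [Finset.sum_sub_distrib, h2, Finset.sum_const, Finset.card_range, nsmul_eq_mul]
          ring
        rw [h4]
        exact neg_mem (Ideal.sum_mem _ fun j _ => h1 j)
      rcases Ideal.IsPrime.mul_mem_pow P h3 with h4 | h4
      · exact absurd h4 hrP
      · exact h4
  have h1 : σ • x - x ∈ ⨅ i : ℕ, P ^ i := by
    rw [Submodule.mem_iInf]
    intro i
    exact Ideal.pow_le_pow_right (Nat.le_succ i) (key i x)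
  rw [Ideal.iInf_pow_eq_bot_of_isDomain P hP.ne_top] at h1
  exact sub_eq_zero.mp h1

theorem wild_isPGroup {P : Ideal S} [hP : P.IsPrime] [Finite Γ] [FaithfulSMul Γ S] {p : ℕ}
    (hpp : p.Prime) (hp : (p : S) ∈ P) : IsPGroup p (wild P Γ) := by
  intro g
  obtain ⟨σ, hσ⟩ := g
  obtain ⟨a, r, hr, har⟩ := Nat.exists_eq_pow_mul_and_not_dvd (orderOf_pos σ).ne' p hpp.ne_one
  refine ⟨a, ?_⟩
  apply Subtype.ext
  show σ ^ p ^ a = 1
  apply FaithfulSMul.eq_of_smul_eq_smul (α := S)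
  intro x
  rw [one_smul]
  apply wild_trivial (Subgroup.pow_mem _ hσ (p ^ a)) hp (r := r)
  · exact ((Nat.Prime.coprime_iff_not_dvd hpp).mpr hr).symm
  · rw [← pow_mul, ← har, pow_orderOf_eq_one]

/-- an element of the inertia group acts on `P / P ^ 2` as a scalar -/
theorem exists_scalar {P : Ideal S} [hP : P.IsPrime] (hP0 : P ≠ ⊥) {τ : Γ}
    (hτ : τ ∈ P.inertia Γ) : ∃ c : S, ∀ y ∈ P, τ • y - c * y ∈ P ^ 2 := by
  have hstab := Ideal.inertia_le_stabilizer P hτ
  have h1 : P ^ 2 < P ^ 1 := Ideal.pow_right_strictAnti P hP0 hP.ne_top (by norm_num)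
  obtain ⟨a, ha, ha2⟩ := SetLike.exists_of_lt h1
  have ha3 : a ∈ P := by rwa [pow_one] at ha
  have ha4 : τ • a ∈ P ^ 1 := by
    rw [pow_one]
    exact smul_mem_of_stab hstab ha3
  obtain ⟨c, e, he, hce⟩ := Ideal.exists_mul_add_mem_pow_succ hP0 a (τ • a) ha ha2 ha4
  refine ⟨c, fun y hy => ?_⟩
  obtain ⟨b, e', he', hbe⟩ := Ideal.exists_mul_add_mem_pow_succ hP0 a y ha ha2
    (by rwa [pow_one])
  rw [one_add_one_eq_two] at he he'
  have h2 : τ • y - c * y = a * c * (τ • b - b) + e * (τ • b) + τ • e' - c * e' := by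
    rw [← hbe, smul_add, smul_mul', ← hce]
    ring
  rw [h2]
  have h3 : a * c * (τ • b - b) ∈ P ^ 2 := by
    rw [mul_assoc, sq]
    exact Ideal.mul_mem_mul ha3 (Ideal.mul_mem_left _ _ (hτ b))
  have h4 : e * (τ • b) ∈ P ^ 2 := Ideal.mul_mem_right _ _ he
  have h5 : τ • e' ∈ P ^ 2 := smul_mem_pow hstab he'
  have h6 : c * e' ∈ P ^ 2 := Ideal.mul_mem_left _ _ he'
  exact sub_mem (add_mem (add_mem h3 h4) h5) h6

/-- the tame relation -/
theorem tame_relation {R : Type} [CommRing R] [Algebra R S] {P : Ideal S} [hP : P.IsPrime]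
    (hP0 : P ≠ ⊥) [SMulCommClass Γ R S] {s τ : Γ} (hs : IsArithFrobAt R s P)
    (hτ : τ ∈ P.inertia Γ) :
    (τ ^ Nat.card (R ⧸ P.under R))⁻¹ * (s * τ * s⁻¹) ∈ wild P Γ := by
  set q := Nat.card (R ⧸ P.under R) with hq
  have hst := hs.mem_stabilizer
  have hst' := Subgroup.inv_mem _ hst
  have hτst := Ideal.inertia_le_stabilizer P hτ
  obtain ⟨c, hc⟩ := exists_scalar hP0 hτ
  have h1 : ∀ (j : ℕ), ∀ y ∈ P, τ ^ j • y - c ^ j * y ∈ P ^ 2 := by
    intro j
    induction j with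
    | zero => intro y _; simp
    | succ j ih =>
      intro y hy
      have h2 : τ ^ (j + 1) • y - c ^ (j + 1) * y =
          (τ • (τ ^ j • y) - c * (τ ^ j • y)) + c * (τ ^ j • y - c ^ j * y) := by
        rw [pow_succ' τ, mul_smul]
        ring
      rw [h2]
      refine add_mem (hc _ ?_) (Ideal.mul_mem_left _ _ (ih y hy))
      exact smul_mem_of_stab (Subgroup.pow_mem _ hτst j) hy
  have h3 : ∀ y ∈ P, (s * τ * s⁻¹) • y - c ^ q * y ∈ P ^ 2 := by
    intro y hy
    have hy' : s⁻¹ • y ∈ P := smul_mem_of_stab hst' hy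
    have h4 : s • (τ • (s⁻¹ • y) - c * (s⁻¹ • y)) ∈ P ^ 2 := smul_mem_pow hst (hc _ hy')
    rw [smul_sub, smul_mul', smul_inv_smul] at h4
    have h5 : s • c - c ^ q ∈ P := hs c
    have h6 : (s • c - c ^ q) * y ∈ P ^ 2 := by
      rw [sq]
      exact Ideal.mul_mem_mul h5 hy
    have h7 : (s * τ * s⁻¹) • y - c ^ q * y =
        (s • τ • s⁻¹ • y - s • c * y) + (s • c - c ^ q) * y := by
      rw [mul_smul, mul_smul]
      ring
    rw [h7]
    exact add_mem h4 h6
  have hq' : (τ ^ q)⁻¹ ∈ MulAction.stabilizer Γ P :=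
    Subgroup.inv_mem _ (Subgroup.pow_mem _ hτst q)
  refine ⟨Subgroup.mul_mem _ (Subgroup.inv_mem _ (Subgroup.pow_mem _ hτ q)) (conj_inertia hst hτ),
    fun y hy => ?_⟩
  have h4 : (s * τ * s⁻¹) • y - τ ^ q • y ∈ P ^ 2 := by
    have := sub_mem (h3 y hy) (h1 q y hy)
    have h5 : (s * τ * s⁻¹) • y - τ ^ q • y =
        ((s * τ * s⁻¹) • y - c ^ q * y) - (τ ^ q • y - c ^ q * y) := by ring
    rw [h5]
    exact this
  have h5 := smul_mem_pow hq' h4
  rw [smul_sub, inv_smul_smul, ← mul_smul] at h5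
  exact h5

end dedekind

end Run7.h456.IG
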