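import Mathlib
import Pool.Agent.Run7.h456.IG.Sylow
import Pool.Agent.Run7.h456.IG.Wild

/-!
# Subgroups of prime power order of decomposition groups are metacyclic
-/

set_option autoImplicit false

namespace Run7.h456.IG

open scoped Pointwise

theorem exists_frob {S : Type} [CommRing S] [IsDedekindDomain S] {Γ : Type} [Group Γ]
    [MulSemiringAction Γ S] (P : Ideal S) [hP : P.IsPrime] (hP0 : P ≠ ⊥) [Finite (S ⧸ P)]
    (T : Subgroup Γ) (hT : T ≤ MulAction.stabilizer Γ P) :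
    ∃ x ∈ T, ∀ t ∈ T, ∃ i : ℤ, (x ^ i)⁻¹ * t ∈ P.inertia Γ := by
  have hmax : P.IsMaximal := hP.isMaximal hP0
  have hp : (P.under ℤ).IsPrime := inferInstance
  have hfin : Finite (ℤ ⧸ P.under ℤ) := .of_injective _ Ideal.algebraMap_quotient_injective
  have hmaxp : (P.under ℤ).IsMaximal := by
    exact Ideal.Quotient.maximal_of_isField _ (Finite.isField_of_domain _)
  let _ : Field (S ⧸ P) := Ideal.Quotient.field P
  let _ : Field (ℤ ⧸ P.under ℤ) := Ideal.Quotient.field _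
  have hc : IsCyclic Gal((S ⧸ P)/(ℤ ⧸ P.under ℤ)) := inferInstance
  let φ : MulAction.stabilizer Γ P →* Gal((S ⧸ P)/(ℤ ⧸ P.under ℤ)) :=
    Ideal.Quotient.stabilizerHom P (P.under ℤ) Γ
  let ψ : T →* Gal((S ⧸ P)/(ℤ ⧸ P.under ℤ)) := φ.comp (Subgroup.inclusion hT)
  obtain ⟨⟨g, x, rfl⟩, hg⟩ := IsCyclic.exists_generator (α := ψ.range)
  refine ⟨x, x.2, fun t ht => ?_⟩
  obtain ⟨i, hi⟩ := hg ⟨ψ ⟨t, ht⟩, ⟨t, ht⟩, rfl⟩
  refine ⟨i, ?_⟩
  have h1 : ψ x ^ i = ψ ⟨t, ht⟩ := congrArg Subtype.val hi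
  have h2 : ψ ((x ^ i)⁻¹ * ⟨t, ht⟩) = 1 := by
    rw [map_mul, map_inv, map_zpow, h1, inv_mul_cancel]
  have h3 : Subgroup.inclusion hT ((x ^ i)⁻¹ * ⟨t, ht⟩) ∈
      (Ideal.Quotient.stabilizerHom P (P.under ℤ) Γ).ker := h2
  rw [Ideal.Quotient.ker_stabilizerHom] at h3
  exact h3

theorem inertia_cyclic {S : Type} [CommRing S] [IsDedekindDomain S] {Γ : Type} [Group Γ] [Finite Γ]
    [MulSemiringAction Γ S] [FaithfulSMul Γ S] (P : Ideal S) [hP : P.IsPrime] (hP0 : P ≠ ⊥)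
    {p : ℕ} (hp : p.Prime) (hpP : (p : S) ∈ P) {l : ℕ} (hl : l.Prime) (hlp : l ≠ p)
    (N : Subgroup Γ) (hN : N ≤ P.inertia Γ) (hNl : IsPGroup l N) : IsCyclic N := by
  have hex : ∀ σ : N, ∃ c : S, ∀ y ∈ P, (σ : Γ) • y - c * y ∈ P ^ 2 := fun σ =>
    exists_scalar hP0 (hN σ.2)
  choose c hc using hex
  have h1 : P ^ 2 < P ^ 1 := Ideal.pow_right_strictAnti P hP0 hP.ne_top (by norm_num)
  obtain ⟨y, hy, hy2⟩ := SetLike.exists_of_lt h1
  rw [pow_one] at hy
  have huniq : ∀ d : S, d * y ∈ P ^ 2 → d ∈ P := by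
    intro d hd
    by_contra hdP
    rcases Ideal.IsPrime.mul_mem_pow P hd with h | h
    · exact hdP h
    · exact hy2 h
  have hstab : ∀ σ : N, (σ : Γ) ∈ MulAction.stabilizer Γ P := fun σ =>
    Ideal.inertia_le_stabilizer P (hN σ.2)
  let χ : N →* (S ⧸ P) :=
    { toFun := fun σ => Ideal.Quotient.mk P (c σ)
      map_one' := by
        rw [← map_one (Ideal.Quotient.mk P), Ideal.Quotient.eq]
        apply huniq
        have h2 := hc 1 y hy
        rw [Subgroup.coe_one, one_smul] at h2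
        have h3 : (c 1 - 1) * y = - (y - c 1 * y) := by ring
        rw [h3]
        exact neg_mem h2
      map_mul' := by
        intro σ τ
        rw [← map_mul, Ideal.Quotient.eq]
        apply huniq
        have h2 := hc (σ * τ) y hy
        have h3 := hc σ ((τ : Γ) • y) (smul_mem_of_stab (hstab τ) hy)
        have h4 := Ideal.mul_mem_left (P ^ 2) (c σ) (hc τ y hy)
        rw [Subgroup.coe_mul, mul_smul] at h2
        have h5 : (c (σ * τ) - c σ * c τ) * y =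
            ((σ : Γ) • (τ : Γ) • y - c σ * ((τ : Γ) • y)) + c σ * ((τ : Γ) • y - c τ * y) -
            ((σ : Γ) • (τ : Γ) • y - c (σ * τ) * y) := by ring
        rw [h5]
        exact sub_mem (add_mem h3 h4) h2 }
  refine isCyclic_of_injective_ringHom χ ?_
  rw [injective_iff_map_eq_one]
  intro σ hσ
  have h2 : c σ - 1 ∈ P := by
    have h3 : Ideal.Quotient.mk P (c σ) = Ideal.Quotient.mk P 1 := by
      rw [map_one]
      exact hσ
    exact Ideal.Quotient.eq.mp h3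
  have h3 : (σ : Γ) ∈ wild P Γ := by
    refine ⟨hN σ.2, fun z hz => ?_⟩
    have h4 := hc σ z hz
    have h5 : (c σ - 1) * z ∈ P ^ 2 := by
      rw [sq]
      exact Ideal.mul_mem_mul h2 hz
    have h6 : (σ : Γ) • z - z = ((σ : Γ) • z - c σ * z) + (c σ - 1) * z := by ring
    rw [h6]
    exact add_mem h4 h5
  obtain ⟨i, hi⟩ := hNl σ
  obtain ⟨j, hj⟩ := wild_isPGroup (Γ := Γ) hp hpP ⟨_, h3⟩
  have h4 : orderOf (σ : Γ) ∣ l ^ i := by
    apply orderOf_dvd_of_pow_eq_one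
    exact_mod_cast congrArg Subtype.val hi
  have h5 : orderOf (σ : Γ) ∣ p ^ j := by
    apply orderOf_dvd_of_pow_eq_one
    exact congrArg Subtype.val hj
  have h6 : orderOf (σ : Γ) = 1 :=
    Nat.eq_one_of_dvd_coprimes (Nat.Coprime.pow _ _ ((Nat.coprime_primes hl hp).mpr hlp)) h4 h5
  exact Subtype.ext (orderOf_eq_one_iff.mp h6)

/-- subgroups of order prime to `p` and a power of a prime `l` of the decomposition group -/
theorem dec_metacyclic {S : Type} [CommRing S] [IsDedekindDomain S] {Γ : Type} [Group Γ]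
    [Finite Γ] [MulSemiringAction Γ S] [FaithfulSMul Γ S] (P : Ideal S) [hP : P.IsPrime]
    (hP0 : P ≠ ⊥) [Finite (S ⧸ P)] {p : ℕ} (hp : p.Prime) (hpP : (p : S) ∈ P) {l : ℕ}
    (hl : l.Prime) (hlp : l ≠ p) (T : Subgroup Γ) (hT : T ≤ MulAction.stabilizer Γ P)
    (hTl : IsPGroup l T) :
    ∃ (x τ : Γ) (r : ℕ), T = Subgroup.closure {x, τ} ∧ x * τ * x⁻¹ = τ ^ r := by
  obtain ⟨x, hx, hxT⟩ := exists_frob P hP0 T hT
  have hN : IsCyclic (T ⊓ P.inertia Γ : Subgroup Γ) :=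
    inertia_cyclic P hP0 hp hpP hl hlp _ inf_le_right (hTl.to_le inf_le_left)
  obtain ⟨⟨τ, hτ⟩, hgen⟩ := hN.exists_generator
  have hgen' : ∀ t ∈ T, t ∈ P.inertia Γ → ∃ i : ℤ, τ ^ i = t := by
    intro t ht1 ht2
    obtain ⟨i, hi⟩ := hgen ⟨t, ht1, ht2⟩
    exact ⟨i, congrArg Subtype.val hi⟩
  have h1 : x * τ * x⁻¹ ∈ T := T.mul_mem (T.mul_mem hx hτ.1) (T.inv_mem hx)
  have h2 : x * τ * x⁻¹ ∈ P.inertia Γ := conj_inertia (hT hx) hτ.2
  obtain ⟨i, hi⟩ := hgen' _ h1 h2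
  have h3 : x * τ * x⁻¹ ∈ Subgroup.zpowers τ := ⟨i, hi⟩
  rw [← mem_powers_iff_mem_zpowers] at h3
  obtain ⟨r, hr⟩ := h3
  refine ⟨x, τ, r, ?_, hr.symm⟩
  apply le_antisymm
  · intro t ht
    obtain ⟨j, hj⟩ := hxT t ht
    obtain ⟨k, hk⟩ := hgen' _ (T.mul_mem (T.inv_mem (T.zpow_mem hx j)) ht) hj
    have h4 : t = x ^ j * τ ^ k := by rw [hk, mul_inv_cancel_left]
    rw [h4]
    exact Subgroup.mul_mem _
      (Subgroup.zpow_mem _ (Subgroup.subset_closure (Set.mem_insert _ _)) _)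
      (Subgroup.zpow_mem _ (Subgroup.subset_closure
        (Set.mem_insert_of_mem _ (Set.mem_singleton _))) _)
  · rw [Subgroup.closure_le]
    rintro t (rfl | ht)
    · exact hx
    · rw [Set.mem_singleton_iff] at ht
      subst ht
      exact hτ.1

/-- if the Galois group is `Cov G m` then the images in `G` of the subgroups of `l`-power order of
the decomposition groups are cyclic -/
theorem dec_cyclic {G : Type} [Group G] [Fintype G] [DecidableEq G] {m : ℕ} [NeZero m]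
    {S : Type} [CommRing S] [IsDedekindDomain S] {Γ : Type} [Group Γ]
    [Finite Γ] [MulSemiringAction Γ S] [FaithfulSMul Γ S] (e : Γ ≃* Cov G m) (P : Ideal S)
    [hP : P.IsPrime] (hP0 : P ≠ ⊥) [Finite (S ⧸ P)] {p : ℕ} (hp : p.Prime) (hpP : (p : S) ∈ P)
    {l c : ℕ} (hl : l.Prime) (hlp : l ≠ p)
    (hc : ∀ U : Subgroup G, IsPGroup l U → Nat.card U ∣ l ^ c) (hm : l ^ (3 * c) ∣ m)
    (T : Subgroup Γ) (hT : T ≤ MulAction.stabilizer Γ P) (hTl : IsPGroup l T) :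
    IsCyclic (T.map ((Cov.pr).comp e.toMonoidHom)) := by
  obtain ⟨x, τ, r, hT2, hr⟩ := dec_metacyclic P hP0 hp hpP hl hlp T hT hTl
  have h1 : T.map e.toMonoidHom = Subgroup.closure {e x, e τ} := by
    rw [hT2, MonoidHom.map_closure, Set.image_pair]
    rfl
  have h2 : IsPGroup l (Subgroup.closure {e x, e τ} : Subgroup (Cov G m)) := by
    rw [← h1]
    exact hTl.map _
  have h3 := metacyclic_cyclic l c hl hc hm (e x) (e τ) r
    (by rw [← map_mul, ← map_inv, ← map_mul, hr, map_pow]) h2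
  rw [← Subgroup.map_map, h1]
  exact h3

end Run7.h456.IG
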