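import Mathlib
import Pool.Agent.Run7.h456.IG.Tame
import Pool.Agent.Run7.h456.IG.Wild

/-!
# Galois groups which are covers `Cov G m`
-/

set_option autoImplicit false

namespace Run7.h456.IG

open scoped Pointwise

theorem gal_tame {G : Type} [Group G] [Fintype G] [DecidableEq G] {m : ℕ} [NeZero m]
    {Γ : Type} [Group Γ] [Finite Γ] (e : Γ ≃* Cov G m)
    {R S : Type} [CommRing R] [CommRing S] [IsDedekindDomain S] [Algebra R S]
    [MulSemiringAction Γ S] [FaithfulSMul Γ S] [SMulCommClass Γ R S] [Algebra.IsInvariant R S Γ]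
    (P : Ideal S) [hP : P.IsPrime] (hP0 : P ≠ ⊥) [Finite (S ⧸ P)] (p : ℕ) (hp : p.Prime)
    (hpP : (p : S) ∈ P) (l k : ℕ) (hl : l.Prime) (hlp : l ≠ p) (hm : l ^ k ∣ m)
    (hl2 : l ∣ Nat.card ((P.inertia Γ).map ((Cov.pr).comp e.toMonoidHom))) :
    l ^ k ∣ Nat.card (R ⧸ P.under R) ^ Fintype.card G - 1 := by
  have hlF : Fact l.Prime := ⟨hl⟩
  obtain ⟨⟨g, hg⟩, hgo⟩ := exists_prime_orderOf_dvd_card' l hl2
  obtain ⟨τ₀, hτ₀, hτ₀g⟩ := hg
  have hgo' : orderOf g = l := by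
    rw [← hgo]
    exact (Subgroup.orderOf_mk g _).symm ▸ rfl
  obtain ⟨a, r, hr, har⟩ := Nat.exists_eq_pow_mul_and_not_dvd (orderOf_pos τ₀).ne' p hp.ne_one
  have hr0 : 0 < r := by
    rcases Nat.eq_zero_or_pos r with h | h
    · rw [h, mul_zero] at har
      exact absurd har (orderOf_pos τ₀).ne'
    · exact h
  set τ := τ₀ ^ p ^ a with hτdef
  have hτ : τ ∈ P.inertia Γ := Subgroup.pow_mem _ hτ₀ _
  have hτr : τ ^ r = 1 := by
    rw [hτdef, ← pow_mul, ← har, pow_orderOf_eq_one]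
  have hτo : (orderOf τ).Coprime p := by
    have h1 : orderOf τ ∣ r := orderOf_dvd_of_pow_eq_one hτr
    have h2 : r.Coprime p := ((Nat.Prime.coprime_iff_not_dvd hp).mpr hr).symm
    exact Nat.Coprime.coprime_dvd_left h1 h2
  obtain ⟨s, hs⟩ := IsArithFrobAt.exists_of_isInvariant R Γ P
  have hq : 0 < Nat.card (R ⧸ P.under R) := by
    have hfin : Finite (R ⧸ P.under R) := .of_injective _ Ideal.algebraMap_quotient_injective
    exact Nat.card_pos
  -- transport to `Cov G m`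
  have hW : IsPGroup p ((wild P Γ).map e.toMonoidHom) := (wild_isPGroup hp hpP).map e.toMonoidHom
  have hnorm : ∀ x ∈ MulAction.stabilizer Γ P,
      e x ∈ Subgroup.normalizer (((wild P Γ).map e.toMonoidHom : Subgroup (Cov G m)) :
        Set (Cov G m)) := by
    intro x hx
    have h1 := stab_le_normalizer P hx
    have h2 : e x ∈ (Subgroup.normalizer (wild P Γ : Set Γ)).map e.toMonoidHom :=
      ⟨x, h1, rfl⟩
    exact Subgroup.le_normalizer_map e.toMonoidHom h2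
  have hrel : ((e τ) ^ Nat.card (R ⧸ P.under R))⁻¹ * (e s * e τ * (e s)⁻¹) ∈
      (wild P Γ).map e.toMonoidHom := by
    have h1 := tame_relation hP0 hs hτ
    have h2 : ((e τ) ^ Nat.card (R ⧸ P.under R))⁻¹ * (e s * e τ * (e s)⁻¹) =
        e ((τ ^ Nat.card (R ⧸ P.under R))⁻¹ * (s * τ * s⁻¹)) := by
      simp only [map_mul, map_inv, map_pow]
    rw [h2]
    exact ⟨_, h1, rfl⟩
  have ho : l ∣ orderOf (Cov.pr (e τ)) := by
    have h1 : Cov.pr (e τ) = g ^ p ^ a := by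
      rw [hτdef, map_pow, map_pow, ← hτ₀g]
      rfl
    rw [h1, Nat.Coprime.orderOf_pow]
    · rw [hgo']
    · rw [hgo']
      exact Nat.Coprime.pow_right a ((Nat.coprime_primes hl hp).mpr hlp)
  exact cov_tame ((wild P Γ).map e.toMonoidHom) p _ k l hp hW hl hm (e s) (e τ)
    (hnorm s hs.mem_stabilizer) (hnorm τ (Ideal.inertia_le_stabilizer P hτ)) hrel
    (by rw [MulEquiv.orderOf_eq]; exact hτo) hq ho

end Run7.h456.IG
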