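import Mathlib
import Pool.Agent.Run7.h456.IG.Gal

/-!
# Number fields with Galois group `Cov G m`
-/

set_option autoImplicit false

namespace Run7.h456.IG

open scoped Pointwise NumberField

theorem card_map_mul {Γ G : Type} [Group Γ] [Finite Γ] [Group G] (π : Γ →* G) (I : Subgroup Γ) :
    Nat.card I = Nat.card (I.map π) * Nat.card (I.subgroupOf π.ker) := by
  let ψ : I →* G := π.comp I.subtype
  have h1 : Nat.card I = Nat.card (I ⧸ ψ.ker) * Nat.card ψ.ker :=
    Subgroup.card_eq_card_quotient_mul_card_subgroup _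
  have h2 : Nat.card (I ⧸ ψ.ker) = Nat.card (I.map π) := by
    rw [Nat.card_congr (QuotientGroup.quotientKerEquivRange ψ).toEquiv]
    have h3 : ψ.range = I.map π := by
      rw [MonoidHom.range_eq_map]
      show Subgroup.map (π.comp I.subtype) ⊤ = _
      rw [← Subgroup.map_map, ← MonoidHom.range_eq_map, Subgroup.range_subtype]
    rw [h3]
  have h3 : Nat.card ψ.ker = Nat.card (I.subgroupOf π.ker) := by
    have h4 : ψ.ker = π.ker.subgroupOf I := rfl
    rw [h4]
    have h5 : Nat.card (π.ker.subgroupOf I) = Nat.card (π.ker ⊓ I : Subgroup Γ) := by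
      rw [← Subgroup.subgroupOf_map_subtype]
      exact (Nat.card_congr ((π.ker.subgroupOf I).equivMapOfInjective I.subtype
        I.subtype_injective).toEquiv)
    have h6 : Nat.card (I.subgroupOf π.ker) = Nat.card (I ⊓ π.ker : Subgroup Γ) := by
      rw [← Subgroup.subgroupOf_map_subtype]
      exact (Nat.card_congr ((I.subgroupOf π.ker).equivMapOfInjective π.ker.subtype
        π.ker.subtype_injective).toEquiv)
    rw [h5, h6, inf_comm]
  rw [h1, h2, h3]

/-- the ramification index in the fixed field of the kernel of `π` is the order of the image of the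
inertia group -/
theorem ram_fixed {K L : Type} [Field K] [NumberField K] [Field L] [NumberField L] [Algebra K L]
    [IsGalois K L] {G : Type} [Group G] (π : Gal(L/K) →* G) (F : IntermediateField K L)
    (hF : F = IntermediateField.fixedField π.ker)
    {R : Type} [CommRing R] [IsDomain R] [Algebra R (𝓞 F)] [Algebra R (𝓞 L)]
    [IsScalarTower R (𝓞 F) (𝓞 L)] [IsGaloisGroup Gal(L/K) R (𝓞 L)] [Module.Finite R (𝓞 L)]
    [Module.Flat R (𝓞 L)] (hR : ∀ (P : Ideal R) [P.IsPrime], PerfectField P.ResidueField)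
    (q : Ideal (𝓞 F)) [hq : q.IsPrime]
    (P : Ideal (𝓞 L)) [hP : P.IsPrime] [hPq : P.LiesOver q] :
    q.ramificationIdx R = Nat.card ((P.inertia Gal(L/K)).map π) := by
  have hgF : IsGaloisGroup π.ker F L :=
    (IsGaloisGroup.subgroup_iff (G := Gal(L/K))).mpr hF.symm
  have hg : IsGaloisGroup π.ker (𝓞 F) (𝓞 L) :=
    IsGaloisGroup.of_isFractionRing π.ker (𝓞 F) (𝓞 L) F L
  have h1 : Nat.card (P.inertia Gal(L/K)) = P.ramificationIdx R := by
    have := hR (P.under R)
    have := Ideal.card_inertia_eq_ramificationIdxIn (G := Gal(L/K)) (P.under R) P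
    rw [this, Ideal.ramificationIdxIn_eq_ramificationIdx _ P Gal(L/K)]
  have h2 : Nat.card (P.inertia π.ker) = P.ramificationIdx (𝓞 F) := by
    have := Ideal.card_inertia_eq_ramificationIdxIn (G := π.ker) q P
    rw [this, Ideal.ramificationIdxIn_eq_ramificationIdx _ P π.ker]
  have h3 : P.ramificationIdx R = q.ramificationIdx R * P.ramificationIdx (𝓞 F) :=
    Ideal.ramificationIdx_tower q P
  have h4 := card_map_mul π (P.inertia Gal(L/K))
  have h5 : Nat.card ((P.inertia Gal(L/K)).subgroupOf π.ker) = Nat.card (P.inertia π.ker) := rfl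
  rw [h5, h1, h2, h3] at h4
  have h6 : 0 < P.ramificationIdx (𝓞 F) := by
    rw [← h2]
    exact Nat.card_pos
  exact Nat.eq_of_mul_eq_mul_right h6 h4

theorem nf_ram {K L : Type} [Field K] [NumberField K] [Field L] [NumberField L] [Algebra K L]
    [IsGalois K L] {G : Type} [Group G] [Fintype G] [DecidableEq G] {m : ℕ} [NeZero m]
    (e : Gal(L/K) ≃* Cov G m) (F : IntermediateField K L)
    (hF : F = IntermediateField.fixedField ((Cov.pr).comp e.toMonoidHom).ker)
    {R : Type} [CommRing R] [IsDomain R] [Algebra R (𝓞 F)] [Algebra R (𝓞 L)]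
    [IsScalarTower R (𝓞 F) (𝓞 L)] [IsGaloisGroup Gal(L/K) R (𝓞 L)] [Module.Finite R (𝓞 L)]
    [Module.Flat R (𝓞 L)] (hR : ∀ (P : Ideal R) [P.IsPrime], PerfectField P.ResidueField)
    (q : Ideal (𝓞 F)) (hq : q.IsPrime) (hq0 : q ≠ ⊥) (p l k : ℕ) (hp : p.Prime)
    (hpq : (p : 𝓞 F) ∈ q) (hl : l.Prime) (hlp : l ≠ p) (hm : l ∣ Fintype.card G → l ^ k ∣ m)
    (hl2 : l ∣ q.ramificationIdx R) :
    l ^ k ∣ Nat.card (R ⧸ q.under R) ^ Fintype.card G - 1 := by
  obtain ⟨⟨P, hP, hPq⟩⟩ := q.nonempty_primesOver (S := 𝓞 L)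
  have hP0 : P ≠ ⊥ := by
    intro h
    subst h
    apply hq0
    rw [hPq.over]
    exact Ideal.comap_bot_of_injective _ (FaithfulSMul.algebraMap_injective (𝓞 F) (𝓞 L))
  have hpP : (p : 𝓞 L) ∈ P := by
    have h1 : algebraMap (𝓞 F) (𝓞 L) (p : 𝓞 F) ∈ P := by
      have h2 := hPq.over ▸ hpq
      exact h2
    rwa [map_natCast] at h1
  have hu : P.under R = q.under R := by
    rw [hPq.over, Ideal.under_under]
  have hfin : Finite (𝓞 L ⧸ P) := Ideal.finiteQuotientOfFreeOfNeBot P hP0
  have hfaith : FaithfulSMul Gal(L/K) (𝓞 L) :=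
    (inferInstance : IsGaloisGroup Gal(L/K) (𝓞 K) (𝓞 L)).faithful
  rw [ram_fixed _ F hF hR q P] at hl2
  have hl3 : l ∣ Fintype.card G := by
    refine dvd_trans hl2 ?_
    rw [← Nat.card_eq_fintype_card]
    exact Subgroup.card_subgroup_dvd_card _
  rw [← hu]
  exact gal_tame e P hP0 p hp hpP l k hl hlp (hm hl3) hl2

/-- embeddings of `L` into the complex numbers which are real on `K` are real on `L` -/
def RealStays (K L : Type) [Field K] [Field L] [Algebra K L] : Prop :=
  ∀ φ : L →+* ℂ, (∀ x : K, starRingEnd ℂ (φ (algebraMap K L x)) = φ (algebraMap K L x)) →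
    ∀ x : L, starRingEnd ℂ (φ x) = φ x

theorem nf_real {K L : Type} [Field K] [NumberField K] [Field L] [NumberField L] [Algebra K L]
    [IsGalois K L] {G : Type} [Group G] [Fintype G] [DecidableEq G] {m : ℕ} [NeZero m]
    (e : Gal(L/K) ≃* Cov G m) (hm : 2 ∣ Fintype.card G → 2 ∣ m) (F : IntermediateField K L)
    (hF : F = IntermediateField.fixedField ((Cov.pr).comp e.toMonoidHom).ker) :
    RealStays K F := by
  intro φ hφ x
  -- extend `φ` to `L`
  let _ : Algebra F ℂ := φ.toAlgebra
  let ψ : L →ₐ[F] ℂ := IsAlgClosed.lift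
  have hψ : ∀ y : F, ψ (algebraMap F L y) = φ y := fun y => ψ.commutes y
  have h1 : ((starRingEnd ℂ).comp ψ.toRingHom).comp (algebraMap K L) =
      ψ.toRingHom.comp (algebraMap K L) := by
    ext y
    have h2 : algebraMap K L y = algebraMap F L (algebraMap K F y) := rfl
    show starRingEnd ℂ (ψ (algebraMap K L y)) = ψ (algebraMap K L y)
    rw [h2, hψ]
    exact hφ y
  obtain ⟨σ, hσ⟩ := NumberField.ComplexEmbedding.exists_comp_symm_eq_of_comp_eq
    (k := K) ψ.toRingHom ((starRingEnd ℂ).comp ψ.toRingHom) h1.symm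
  have hσ' : ∀ y : L, ψ (σ.symm y) = starRingEnd ℂ (ψ y) := fun y => DFunLike.congr_fun hσ y
  set c : Gal(L/K) := σ.symm with hc
  have hc2 : c ^ 2 = 1 := by
    ext y
    apply ψ.toRingHom.injective
    show ψ ((c ^ 2) y) = ψ y
    have h3 : (c ^ 2) y = σ.symm (σ.symm y) := by
      rw [sq]
      rfl
    rw [h3, hσ', hσ', Complex.conj_conj]
  have hker : Cov.pr (e c) = 1 := by
    by_contra hne
    have h4 : (Cov.pr (e c)) ^ 2 = 1 := by
      rw [← map_pow, ← map_pow, hc2, map_one, map_one]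
    have h5 : orderOf (Cov.pr (e c)) = 2 := orderOf_eq_prime h4 hne
    have h6 : 2 ∣ Fintype.card G := by
      rw [← h5]
      exact orderOf_dvd_card
    have h7 := order_grows 2 1 1 Nat.prime_two (by rw [pow_one]; exact hm h6) (e c)
      (by rw [← Cov.pr_apply, h5]) (by
        rw [← Cov.pr_apply, h5, mul_one, ← map_pow, hc2, map_one])
    norm_num at h7
  have hfix : c (algebraMap F L x) = algebraMap F L x := by
    have hx : (algebraMap F L x) ∈ IntermediateField.fixedField ((Cov.pr).comp e.toMonoidHom).ker := by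
      rw [← hF]
      exact x.2
    rw [IntermediateField.mem_fixedField_iff] at hx
    exact hx c hker
  rw [← hψ x, ← hσ', hfix]

theorem nf_galois {K L : Type} [Field K] [Field L] [Algebra K L] [FiniteDimensional K L]
    [IsGalois K L] {H G : Type} [Group H] [Group G] (e : Gal(L/K) ≃* H) (π : H →* G)
    (hπ : Function.Surjective π) (F : IntermediateField K L)
    (hF : F = IntermediateField.fixedField (π.comp e.toMonoidHom).ker) :
    IsGalois K F ∧ Nonempty (G ≃* Gal(F/K)) := by
  subst hF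
  refine ⟨inferInstance, ⟨?_⟩⟩
  have hs : Function.Surjective (π.comp e.toMonoidHom) := hπ.comp e.surjective
  exact (QuotientGroup.quotientKerEquivOfSurjective _ hs).symm.trans
    (IsGalois.normalAutEquivQuotient (π.comp e.toMonoidHom).ker)

end Run7.h456.IG
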