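import Mathlib
import Pool.Agent.Run7.h456.IG.NF
import Pool.Agent.Run7.h456.IG.Dec

/-!
# Number fields with Galois group `Cov G m`: decomposition groups
-/

set_option autoImplicit false

namespace Run7.h456.IG

open scoped Pointwise NumberField

/-- for every prime ideal `P` of `L` over `p` and every prime number `l ≠ p` the subgroups of
`l`-power order of the decomposition group of `P` are cyclic -/
def LocallyCyclic (K L : Type) [Field K] [NumberField K] [Field L] [NumberField L]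
    [Algebra K L] : Prop :=
  ∀ P : Ideal (𝓞 L), P.IsPrime → P ≠ ⊥ → ∀ p l : ℕ, p.Prime → (p : 𝓞 L) ∈ P → l.Prime → l ≠ p →
    ∀ T : Subgroup Gal(L/K), IsPGroup l T → (∀ σ ∈ T, ∀ x ∈ P, σ • x ∈ P) → IsCyclic T

theorem exists_sylow {Γ Δ : Type} [Group Γ] [Finite Γ] [Group Δ] (ρ : Γ →* Δ) (T : Subgroup Γ)
    (l : ℕ) (hl : l.Prime) (hT : IsPGroup l (T.map ρ)) :
    ∃ T' ≤ T, IsPGroup l T' ∧ T'.map ρ = T.map ρ := by
  have hlF : Fact l.Prime := ⟨hl⟩
  let f : T →* T.map ρ := ρ.subgroupMap T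
  have hf : Function.Surjective f := ρ.subgroupMap_surjective T
  let Q : Sylow l T := default
  have h1 : ((Q.mapSurjective hf : Sylow l (T.map ρ)) : Subgroup (T.map ρ)) = ⊤ := by
    have h2 := (Q.mapSurjective hf).is_maximal' (Q := ⊤) (hT.to_le le_rfl |>.to_subgroup ⊤) le_top
    exact h2.symm
  have h2 : (Q : Subgroup T).map f = ⊤ := h1
  refine ⟨(Q : Subgroup T).map T.subtype, ?_, Q.2.map _, ?_⟩
  · rintro t ⟨u, _, rfl⟩
    exact u.2
  · apply le_antisymm
    · apply Subgroup.map_mono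
      rintro t ⟨u, _, rfl⟩
      exact u.2
    · rintro d ⟨t, ht, rfl⟩
      have h3 : f ⟨t, ht⟩ ∈ (Q : Subgroup T).map f := by
        rw [h2]
        exact Subgroup.mem_top _
      obtain ⟨u, hu, hut⟩ := h3
      exact ⟨u, ⟨u, hu, rfl⟩, congrArg Subtype.val hut⟩

theorem cyclic_of_ker {Γ A B : Type} [Group Γ] [Group A] [Group B] (f : Γ →* A) (g : Γ →* B)
    (hfg : f.ker ≤ g.ker) (T : Subgroup Γ) (h : IsCyclic (T.map f)) : IsCyclic (T.map g) := by
  obtain ⟨⟨_, t, ht, rfl⟩, hgen⟩ := h.exists_generator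
  have h1 : T.map g = Subgroup.zpowers (g t) := by
    apply le_antisymm
    · rintro _ ⟨s, hs, rfl⟩
      obtain ⟨i, hi⟩ := hgen ⟨f s, s, hs, rfl⟩
      have h2 : f t ^ i = f s := congrArg Subtype.val hi
      have h3 : (t ^ i)⁻¹ * s ∈ f.ker := by
        rw [MonoidHom.mem_ker, map_mul, map_inv, map_zpow, h2, inv_mul_cancel]
      have h4 := hfg h3
      rw [MonoidHom.mem_ker, map_mul, map_inv, map_zpow, inv_mul_eq_one] at h4
      exact ⟨i, h4⟩
    · rw [Subgroup.zpowers_le]
      exact ⟨t, ht, rfl⟩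
  rw [h1]
  infer_instance

theorem nf_cyclic {K L : Type} [Field K] [NumberField K] [Field L] [NumberField L] [Algebra K L]
    [IsGalois K L] {G : Type} [Group G] [Fintype G] [DecidableEq G] {m : ℕ} [NeZero m]
    (e : Gal(L/K) ≃* Cov G m)
    (hm : ∀ l : ℕ, l.Prime → l ∣ Fintype.card G → l ^ (3 * (Fintype.card G).factorization l) ∣ m)
    (F : IntermediateField K L)
    (hF : F = IntermediateField.fixedField ((Cov.pr).comp e.toMonoidHom).ker) :
    LocallyCyclic K F := by
  intro q hq hq0 p l hp hpq hl hlp U hU hUq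
  have hFG : IsGalois K F := by
    subst hF
    infer_instance
  obtain ⟨⟨P, hP, hPq⟩⟩ := q.nonempty_primesOver (S := 𝓞 L)
  have hP0 : P ≠ ⊥ := by
    intro h
    subst h
    apply hq0
    rw [hPq.over]
    exact Ideal.comap_bot_of_injective _ (FaithfulSMul.algebraMap_injective (𝓞 F) (𝓞 L))
  have hpP : (p : 𝓞 L) ∈ P := by
    have h1 : algebraMap (𝓞 F) (𝓞 L) (p : 𝓞 F) ∈ P := by
      have h2 := hPq.over ▸ hpq
      exact h2
    rwa [map_natCast] at h1
  have hfin : Finite (𝓞 L ⧸ P) := Ideal.finiteQuotientOfFreeOfNeBot P hP0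
  have hfaith : FaithfulSMul Gal(L/K) (𝓞 L) :=
    (inferInstance : IsGaloisGroup Gal(L/K) (𝓞 K) (𝓞 L)).faithful
  let ρ : Gal(L/K) →* Gal(F/K) := AlgEquiv.restrictNormalHom F
  have hρs : Function.Surjective ρ := AlgEquiv.restrictNormalHom_surjective L
  have hker : ((Cov.pr).comp e.toMonoidHom).ker = ρ.ker := by
    rw [show ρ.ker = F.fixingSubgroup from IntermediateField.restrictNormalHom_ker F, hF,
      IntermediateField.fixingSubgroup_fixedField]
  have hρ : ∀ (σ : Gal(L/K)) (x : 𝓞 F), algebraMap (𝓞 F) (𝓞 L) (ρ σ • x) =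
      σ • algebraMap (𝓞 F) (𝓞 L) x := by
    intro σ x
    apply NumberField.RingOfIntegers.ext
    exact AlgEquiv.restrictNormalHom_apply F σ x
  -- the decomposition group of `P` maps onto the one of `q`
  let D : Subgroup Gal(L/K) := MulAction.stabilizer Gal(L/K) P ⊓ U.comap ρ
  have hD : D.map ρ = U := by
    apply le_antisymm
    · rintro _ ⟨σ, hσ, rfl⟩
      exact hσ.2
    · intro u hu
      obtain ⟨σ, hσ⟩ := hρs u
      have hgF : IsGaloisGroup ((Cov.pr).comp e.toMonoidHom).ker F L :=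
        (IsGaloisGroup.subgroup_iff (G := Gal(L/K))).mpr hF.symm
      have hg : IsGaloisGroup ((Cov.pr).comp e.toMonoidHom).ker (𝓞 F) (𝓞 L) :=
        IsGaloisGroup.of_isFractionRing _ (𝓞 F) (𝓞 L) F L
      have hle : ∀ x ∈ q, u⁻¹ • x ∈ q := fun x hx => hUq _ (U.inv_mem hu) x hx
      have hPu : P.under (𝓞 F) = (σ • P).under (𝓞 F) := by
        have h0 : ∀ x : 𝓞 F, x ∈ q ↔ algebraMap (𝓞 F) (𝓞 L) x ∈ P := by
          intro x
          rw [hPq.over]
          exact Iff.rfl
        ext x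
        show algebraMap (𝓞 F) (𝓞 L) x ∈ P ↔ algebraMap (𝓞 F) (𝓞 L) x ∈ σ • P
        rw [Ideal.mem_pointwise_smul_iff_inv_smul_mem, ← hρ, map_inv, hσ, ← h0, ← h0]
        constructor
        · exact hle x
        · intro hx
          have h5 := hUq u hu _ hx
          rwa [smul_inv_smul] at h5
      obtain ⟨τ, hτ⟩ := Algebra.IsInvariant.exists_smul_of_under_eq (𝓞 F) (𝓞 L)
        ((Cov.pr).comp e.toMonoidHom).ker (σ • P) P hPu.symm
      have hτρ : ρ (τ : Gal(L/K)) = 1 := hker.le τ.2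
      refine ⟨(τ : Gal(L/K)) * σ, ⟨?_, ?_⟩, ?_⟩
      · show (τ : Gal(L/K)) * σ ∈ MulAction.stabilizer Gal(L/K) P
        rw [MulAction.mem_stabilizer_iff, mul_smul]
        exact hτ.symm
      · show ρ ((τ : Gal(L/K)) * σ) ∈ U
        rw [map_mul, hτρ, one_mul, hσ]
        exact hu
      · rw [map_mul, hτρ, one_mul, hσ]
  obtain ⟨T, hTD, hTl, hTU⟩ := exists_sylow ρ D l hl (by rw [hD]; exact hU)
  rw [hD] at hTU
  by_cases hlG : l ∣ Fintype.card G
  · have h1 := dec_cyclic e P hP0 hp hpP hl hlp (c := (Fintype.card G).factorization l) ?_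
      (hm l hl hlG) T (hTD.trans inf_le_left) hTl
    · have h2 := cyclic_of_ker _ ρ hker.le T h1
      rw [hTU] at h2
      exact h2
    · intro V hV
      have hlF : Fact l.Prime := ⟨hl⟩
      obtain ⟨n, hn⟩ := IsPGroup.iff_card.mp hV
      rw [hn]
      apply pow_dvd_pow
      have h2 : l ^ n ∣ Fintype.card G := by
        rw [← hn, ← Nat.card_eq_fintype_card]
        exact Subgroup.card_subgroup_dvd_card V
      exact (hl.pow_dvd_iff_le_factorization Fintype.card_ne_zero).mp h2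
  · -- the group `U` is trivial
    have hlF : Fact l.Prime := ⟨hl⟩
    have h2 := nf_galois e (Cov.pr : Cov G m →* G) Cov.pr_surjective F hF
    obtain ⟨e2⟩ := h2.2
    obtain ⟨n, hn⟩ := IsPGroup.iff_card.mp hU
    have h3 : Nat.card U ∣ Fintype.card G := by
      rw [← Nat.card_eq_fintype_card, Nat.card_congr e2.toEquiv]
      exact Subgroup.card_subgroup_dvd_card U
    rcases Nat.eq_zero_or_pos n with h0 | h0
    · rw [h0, pow_zero] at hn
      have h4 : Subsingleton U := (Nat.card_eq_one_iff_unique.mp hn).1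
      infer_instance
    · exfalso
      apply hlG
      rw [hn] at h3
      exact (dvd_pow_self l h0.ne').trans h3

end Run7.h456.IG
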