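import Mathlib
import Pool.Agent.Run7.h456.IG.NF2

/-!
# Lifting of decomposition and inertia groups, and the local conditions in quotients of `Cov G m`
-/

set_option autoImplicit false

namespace Run7.h456.IG

open scoped Pointwise

section lift

variable {Γ Δ A B : Type} [Group Γ] [Finite Γ] [Group Δ] [CommRing A] [CommRing B] [Algebra A B]
  [MulSemiringAction Γ B] [MulSemiringAction Δ A] (ρ : Γ →* Δ)

theorem core_lift (hρs : Function.Surjective ρ)
    (hρ : ∀ (σ : Γ) (a : A), algebraMap A B (ρ σ • a) = σ • algebraMap A B a)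
    [Algebra.IsInvariant A B ρ.ker] [SMulCommClass ρ.ker A B] (q : Ideal A) (P : Ideal B)
    [hP : P.IsPrime] [hPq : P.LiesOver q] (u : Δ) (hu : ∀ x ∈ q, u • x ∈ q)
    (hu' : ∀ x ∈ q, u⁻¹ • x ∈ q) : ∃ σ ∈ MulAction.stabilizer Γ P, ρ σ = u := by
  obtain ⟨σ, hσ⟩ := hρs u
  have hPu : P.under A = (σ • P).under A := by
    have h0 : ∀ x : A, x ∈ q ↔ algebraMap A B x ∈ P := by
      intro x
      rw [hPq.over]
      exact Iff.rfl
    ext x
    show algebraMap A B x ∈ P ↔ algebraMap A B x ∈ σ • P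
    rw [Ideal.mem_pointwise_smul_iff_inv_smul_mem, ← hρ, map_inv, hσ, ← h0, ← h0]
    constructor
    · exact hu' x
    · intro hx
      have h5 := hu _ hx
      rwa [smul_inv_smul] at h5
  obtain ⟨τ, hτ⟩ := Algebra.IsInvariant.exists_smul_of_under_eq A B ρ.ker (σ • P) P hPu.symm
  have hτρ : ρ (τ : Γ) = 1 := τ.2
  refine ⟨(τ : Γ) * σ, ?_, ?_⟩
  · rw [MulAction.mem_stabilizer_iff, mul_smul]
    exact hτ.symm
  · rw [map_mul, hτρ, one_mul, hσ]

theorem core_inertia (hρs : Function.Surjective ρ)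
    (hρ : ∀ (σ : Γ) (a : A), algebraMap A B (ρ σ • a) = σ • algebraMap A B a)
    [Algebra.IsInvariant A B ρ.ker] [SMulCommClass ρ.ker A B] (q : Ideal A) (P : Ideal B)
    [hP : P.IsPrime] [hPq : P.LiesOver q] (u : Δ) (hu : u ∈ q.inertia Δ) :
    ∃ σ ∈ P.inertia Γ, ρ σ = u := by
  have hst := Ideal.inertia_le_stabilizer q hu
  have hst' := Subgroup.inv_mem _ hst
  obtain ⟨σ, hσ, hσu⟩ := core_lift ρ hρs hρ q P u (fun x hx => smul_mem_of_stab hst hx)
    (fun x hx => smul_mem_of_stab hst' hx)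
  -- the automorphism of the residue ring
  let f : (B ⧸ P) ≃ₐ[A ⧸ q] (B ⧸ P) :=
    { Ideal.quotientEquiv P P (MulSemiringAction.toRingEquiv Γ B σ)
        (MulAction.mem_stabilizer_iff.mp hσ).symm with
      commutes' := by
        rintro ⟨a⟩
        show Ideal.Quotient.mk P (σ • algebraMap A B a) = Ideal.Quotient.mk P (algebraMap A B a)
        rw [Ideal.Quotient.eq, ← hρ, hσu, ← map_sub]
        have h1 : u • a - a ∈ q := hu a
        have h2 : u • a - a ∈ P.under A := hPq.over ▸ h1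
        exact h2 }
  obtain ⟨τ, hτ⟩ := Ideal.Quotient.stabilizerHom_surjective ρ.ker q P f
  have hτρ : ρ ((τ : ρ.ker) : Γ) = 1 := (τ : ρ.ker).2
  have hτs : ((τ : ρ.ker) : Γ) ∈ MulAction.stabilizer Γ P := τ.2
  refine ⟨(((τ : ρ.ker) : Γ))⁻¹ * σ, ?_, ?_⟩
  · intro b
    have h1 : Ideal.Quotient.mk P (((τ : ρ.ker) : Γ) • b) = Ideal.Quotient.mk P (σ • b) := by
      have h2 := DFunLike.congr_fun hτ (Ideal.Quotient.mk P b)
      exact h2
    rw [Ideal.Quotient.eq] at h1
    have h2 := smul_mem_of_stab (Subgroup.inv_mem _ hτs) h1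
    rw [smul_sub, inv_smul_smul, ← mul_smul] at h2
    have h3 := neg_mem h2
    rwa [neg_sub] at h3
  · rw [map_mul, map_inv, hτρ, inv_one, one_mul, hσu]

end lift

section core

variable {G : Type} [Group G] [Fintype G] [DecidableEq G] {m : ℕ} [NeZero m]
  {Γ Δ A B : Type} [Group Γ] [Finite Γ] [Group Δ] [CommRing A] [CommRing B] [Algebra A B]
  [MulSemiringAction Γ B] [MulSemiringAction Δ A] (ρ : Γ →* Δ)

theorem core_cyclic (hρs : Function.Surjective ρ)
    (hρ : ∀ (σ : Γ) (a : A), algebraMap A B (ρ σ • a) = σ • algebraMap A B a)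
    [Algebra.IsInvariant A B ρ.ker] [SMulCommClass ρ.ker A B] [IsDedekindDomain B]
    [FaithfulSMul Γ B] (e : Γ ≃* Cov G m) (hker : ((Cov.pr).comp e.toMonoidHom).ker = ρ.ker)
    (hm : ∀ l : ℕ, l.Prime → l ∣ Fintype.card G → l ^ (3 * (Fintype.card G).factorization l) ∣ m)
    (q : Ideal A) (P : Ideal B)
    [hP : P.IsPrime] [hPq : P.LiesOver q] (hP0 : P ≠ ⊥) [Finite (B ⧸ P)] (p l : ℕ) (hp : p.Prime)
    (hpP : (p : B) ∈ P) (hl : l.Prime) (hlp : l ≠ p) (U : Subgroup Δ) (hU : IsPGroup l U)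
    (hUq : ∀ u ∈ U, ∀ x ∈ q, u • x ∈ q) : IsCyclic U := by
  let D : Subgroup Γ := MulAction.stabilizer Γ P ⊓ U.comap ρ
  have hD : D.map ρ = U := by
    apply le_antisymm
    · rintro _ ⟨σ, hσ, rfl⟩
      exact hσ.2
    · intro u hu
      obtain ⟨σ, hσ, hσu⟩ := core_lift ρ hρs hρ q P u (hUq u hu) (hUq _ (U.inv_mem hu))
      refine ⟨σ, ⟨hσ, ?_⟩, hσu⟩
      show ρ σ ∈ U
      rw [hσu]
      exact hu
  obtain ⟨T, hTD, hTl, hTU⟩ := exists_sylow ρ D l hl (by rw [hD]; exact hU)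
  rw [hD] at hTU
  by_cases hlG : l ∣ Fintype.card G
  · have h1 := dec_cyclic e P hP0 hp hpP hl hlp (c := (Fintype.card G).factorization l) ?_
      (hm l hl hlG) T (hTD.trans inf_le_left) hTl
    · have h2 := cyclic_of_ker _ ρ hker.le T h1
      rw [hTU] at h2
      exact h2
    · intro V hV
      have hlF : Fact l.Prime := ⟨hl⟩
      obtain ⟨n, hn⟩ := IsPGroup.iff_card.mp hV
      rw [hn]
      apply pow_dvd_pow
      have h2 : l ^ n ∣ Fintype.card G := by
        rw [← hn, ← Nat.card_eq_fintype_card]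
        exact Subgroup.card_subgroup_dvd_card V
      exact (hl.pow_dvd_iff_le_factorization Fintype.card_ne_zero).mp h2
  · -- the group `U` is trivial
    have hlF : Fact l.Prime := ⟨hl⟩
    have h1 : IsCyclic (T.map ((Cov.pr).comp e.toMonoidHom)) := by
      have h2 : IsPGroup l (T.map ((Cov.pr).comp e.toMonoidHom)) := hTl.map _
      obtain ⟨n, hn⟩ := IsPGroup.iff_card.mp h2
      have h3 : Nat.card (T.map ((Cov.pr).comp e.toMonoidHom)) ∣ Fintype.card G := by
        rw [← Nat.card_eq_fintype_card]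
        exact Subgroup.card_subgroup_dvd_card _
      rcases Nat.eq_zero_or_pos n with h0 | h0
      · rw [h0, pow_zero] at hn
        have h4 : Subsingleton (T.map ((Cov.pr).comp e.toMonoidHom)) :=
          (Nat.card_eq_one_iff_unique.mp hn).1
        infer_instance
      · exfalso
        apply hlG
        rw [hn] at h3
        exact (dvd_pow_self l h0.ne').trans h3
    have h2 := cyclic_of_ker _ ρ hker.le T h1
    rw [hTU] at h2
    exact h2

theorem core_tame (hρs : Function.Surjective ρ)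
    (hρ : ∀ (σ : Γ) (a : A), algebraMap A B (ρ σ • a) = σ • algebraMap A B a)
    [Algebra.IsInvariant A B ρ.ker] [SMulCommClass ρ.ker A B] [IsDedekindDomain B]
    [FaithfulSMul Γ B] {R : Type} [CommRing R] [Algebra R B] [SMulCommClass Γ R B]
    [Algebra.IsInvariant R B Γ] (e : Γ ≃* Cov G m)
    (hker : ((Cov.pr).comp e.toMonoidHom).ker = ρ.ker)
    (q : Ideal A) (P : Ideal B)
    [hP : P.IsPrime] [hPq : P.LiesOver q] (hP0 : P ≠ ⊥) [Finite (B ⧸ P)] (p l k : ℕ) (hp : p.Prime)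
    (hpP : (p : B) ∈ P) (hl : l.Prime) (hlp : l ≠ p) (hm : l ∣ Fintype.card G → l ^ k ∣ m)
    (hl2 : l ∣ Nat.card (q.inertia Δ)) :
    l ^ k ∣ Nat.card (R ⧸ P.under R) ^ Fintype.card G - 1 := by
  have hlF : Fact l.Prime := ⟨hl⟩
  have hΔ : Finite Δ := Finite.of_surjective ρ hρs
  obtain ⟨⟨u, hu⟩, huo⟩ := exists_prime_orderOf_dvd_card' l hl2
  rw [Subgroup.orderOf_mk] at huo
  obtain ⟨σ, hσ, hσu⟩ := core_inertia ρ hρs hρ q P u hu
  have h1 : orderOf (((Cov.pr).comp e.toMonoidHom) σ) = l := by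
    rw [← huo, ← hσu]
    apply Nat.dvd_antisymm
    · apply orderOf_dvd_of_pow_eq_one
      rw [← map_pow, ← MonoidHom.mem_ker, hker, MonoidHom.mem_ker, map_pow, pow_orderOf_eq_one]
    · apply orderOf_dvd_of_pow_eq_one
      rw [← map_pow, ← MonoidHom.mem_ker, ← hker, MonoidHom.mem_ker, map_pow, pow_orderOf_eq_one]
  have h2 : ((Cov.pr).comp e.toMonoidHom) σ ∈ (P.inertia Γ).map ((Cov.pr).comp e.toMonoidHom) :=
    ⟨σ, hσ, rfl⟩
  have h3 : l ∣ Nat.card ((P.inertia Γ).map ((Cov.pr).comp e.toMonoidHom)) := by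
    have h4 := Subgroup.orderOf_dvd_natCard _ h2
    rwa [h1] at h4
  have hlG : l ∣ Fintype.card G := by
    refine h3.trans ?_
    rw [← Nat.card_eq_fintype_card]
    exact Subgroup.card_subgroup_dvd_card _
  exact gal_tame e P hP0 p hp hpP l k hl hlp (hm hlG) h3

end core

end Run7.h456.IG
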