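import Mathlib
import Pool.Agent.Run7.h456.IG.Core

/-!
# Places of fields with Galois group `Cov G m` over the fraction field of a principal ideal domain
-/

set_option autoImplicit false

namespace Run7.h456.IG

open scoped Pointwise

section residue

/-- the residue field of a valuation ring containing a principal ideal domain with the same
fraction field -/
theorem card_residue {K R : Type} [Field K] [CommRing R] [IsDomain R] [IsPrincipalIdealRing R]
    [Algebra R K] [IsFractionRing R K] (V : ValuationSubring K)
    (hRV : ∀ r : R, algebraMap R K r ∈ V) (p : Ideal R) (hp0 : p ≠ ⊥) [hp : p.IsPrime]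
    (hpV : ∀ r : R, r ∈ p ↔ algebraMap R K r ∈ V.nonunits) :
    Nat.card (IsLocalRing.ResidueField V) = Nat.card (R ⧸ p) := by
  have hmax : p.IsMaximal := hp.isMaximal hp0
  let f : R →+* V := (algebraMap R K).codRestrict V.toSubring hRV
  let g : R →+* IsLocalRing.ResidueField V := (IsLocalRing.residue V).comp f
  have hg : ∀ r : R, g r = 0 ↔ r ∈ p := by
    intro r
    rw [hpV]
    show IsLocalRing.residue V (f r) = 0 ↔ _
    rw [IsLocalRing.residue_eq_zero_iff]
    exact (ValuationSubring.coe_mem_nonunits_iff (A := V) (a := f r)).symm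
  have hsurj : Function.Surjective g := by
    intro y
    obtain ⟨x, rfl⟩ := IsLocalRing.residue_surjective y
    obtain ⟨a, b, hab, hx⟩ := IsFractionRing.exists_reduced_fraction (A := R) (x : K)
    have hb0 : (b : R) ≠ 0 := nonZeroDivisors.coe_ne_zero b
    have hx' : (x : K) * algebraMap R K b = algebraMap R K a := by
      rw [← hx]
      exact IsLocalization.mk'_spec K a b
    have hbp : (b : R) ∉ p := by
      intro hb
      have h1 : f b ∈ IsLocalRing.maximalIdeal V :=
        (ValuationSubring.coe_mem_nonunits_iff (A := V) (a := f b)).mp ((hpV _).mp hb)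
      have h2 : f a ∈ IsLocalRing.maximalIdeal V := by
        have h3 : f a = x * f b := Subtype.ext hx'.symm
        rw [h3]
        exact Ideal.mul_mem_left _ _ h1
      have ha : a ∈ p := by
        rw [hpV]
        exact (ValuationSubring.coe_mem_nonunits_iff (A := V) (a := f a)).mpr h2
      have h3 : IsCoprime a (b : R) := hab.isCoprime
      obtain ⟨u, v, huv⟩ := h3
      apply hp.ne_top
      rw [Ideal.eq_top_iff_one, ← huv]
      exact add_mem (Ideal.mul_mem_left _ _ ha) (Ideal.mul_mem_left _ _ hb)
    obtain ⟨c, hc⟩ := hmax.exists_inv hbp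
    obtain ⟨d, hd, hcd⟩ := hc
    refine ⟨c * a, ?_⟩
    have h1 : f d ∈ IsLocalRing.maximalIdeal V :=
      (ValuationSubring.coe_mem_nonunits_iff (A := V) (a := f d)).mp ((hpV _).mp hd)
    have h2 : x = f (c * a) + x * f d := by
      have h3 : x * f b = f a := Subtype.ext hx'
      have h4 : f c * f b + f d = 1 := by rw [← map_mul, ← map_add, hcd, map_one]
      calc x = x * (f c * f b + f d) := by rw [h4, mul_one]
        _ = f c * (x * f b) + x * f d := by ring
        _ = f (c * a) + x * f d := by rw [h3, map_mul]
    show IsLocalRing.residue V (f (c * a)) = IsLocalRing.residue V x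
    conv_rhs => rw [h2]
    rw [map_add (IsLocalRing.residue V), map_mul (IsLocalRing.residue V) x,
      (IsLocalRing.residue_eq_zero_iff (f d)).mpr h1, mul_zero, add_zero]
  have hker : RingHom.ker g = p := by
    ext r
    rw [RingHom.mem_ker]
    exact hg r
  rw [← hker]
  exact (Nat.card_congr (RingHom.quotientKerEquivOfSurjective hsurj).toEquiv).symm

end residue

section place

variable {K L : Type} [Field K] [Field L] [Algebra K L]
  {R : Type} [CommRing R] [IsDomain R] [Algebra R K]
  [Algebra R L] [IsScalarTower R K L] (F : IntermediateField K L)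

theorem tower : IsScalarTower R F L := IsScalarTower.of_algebraMap_eq fun r => by
  rw [IsScalarTower.algebraMap_apply R K F, IsScalarTower.algebraMap_apply R K L]
  rfl

/-- the inclusion of the integral closures -/
noncomputable def clMap : integralClosure R F →+* integralClosure R L :=
  have := tower (R := R) F
  { toFun := fun a => ⟨algebraMap F L a, a.2.map (IsScalarTower.toAlgHom R F L)⟩
    map_one' := Subtype.ext (map_one _)
    map_mul' := fun _ _ => Subtype.ext (map_mul _ _ _)
    map_zero' := Subtype.ext (map_zero _)
    map_add' := fun _ _ => Subtype.ext (map_add _ _ _) }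

theorem clMap_coe (a : integralClosure R F) : ((clMap (R := R) F a : integralClosure R L) : L) =
    algebraMap F L a := rfl

variable [FiniteDimensional K L] [IsGalois K L] [IsPrincipalIdealRing R] [IsFractionRing R K]

theorem inv_ker : letI := (clMap (R := R) F).toAlgebra
    Algebra.IsInvariant (integralClosure R F) (integralClosure R L) F.fixingSubgroup := by
  let _ := (clMap (R := R) F).toAlgebra
  have := tower (R := R) F
  refine ⟨fun b hb => ?_⟩
  have h1 : (b : L) ∈ F := by
    rw [← IsGalois.fixedField_fixingSubgroup F, IntermediateField.mem_fixedField_iff]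
    intro σ hσ
    exact congrArg Subtype.val (hb ⟨σ, hσ⟩)
  have h2 : IsIntegral R (⟨b, h1⟩ : F) := by
    rw [← isIntegral_algHom_iff (IsScalarTower.toAlgHom R F L) (algebraMap F L).injective]
    exact b.2
  exact ⟨⟨⟨b, h1⟩, h2⟩, rfl⟩

theorem inv_all : Algebra.IsInvariant R (integralClosure R L) Gal(L/K) := by
  refine ⟨fun b hb => ?_⟩
  have h1 : (b : L) ∈ (⊥ : IntermediateField K L) := by
    rw [IsGalois.mem_bot_iff_fixed]
    intro σ
    exact congrArg Subtype.val (hb σ)
  obtain ⟨x, hx⟩ := IntermediateField.mem_bot.mp h1
  have h2 : IsIntegral R x := by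
    rw [← isIntegral_algHom_iff (IsScalarTower.toAlgHom R K L) (algebraMap K L).injective]
    show IsIntegral R (algebraMap K L x)
    rw [hx]
    exact b.2
  obtain ⟨r, hr⟩ := IsIntegrallyClosed.isIntegral_iff.mp h2
  refine ⟨r, Subtype.ext ?_⟩
  show algebraMap R L r = b
  rw [IsScalarTower.algebraMap_apply R K L, hr, hx]

theorem place_all {G : Type} [Group G] [Fintype G] [DecidableEq G] {m : ℕ} [NeZero m]
    (hfinR : ∀ 𝔭 : Ideal R, 𝔭.IsPrime → 𝔭 ≠ ⊥ → Finite (R ⧸ 𝔭))
    (e : Gal(L/K) ≃* Cov G m)
    (hm : ∀ l : ℕ, l.Prime → l ∣ Fintype.card G → l ^ (3 * (Fintype.card G).factorization l) ∣ m)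
    (hF : F = IntermediateField.fixedField ((Cov.pr).comp e.toMonoidHom).ker)
    (V : ValuationSubring F) (hV : V ≠ ⊤) (hRV : ∀ r : R, algebraMap R F r ∈ V) (p : ℕ)
    (hp : p.Prime) (hpV : (p : F) ∈ V.nonunits) :
    (∀ (l : ℕ), l.Prime → l ≠ p → ∀ U : Subgroup Gal(F/K), IsPGroup l U →
      U ≤ V.decompositionSubgroup K → IsCyclic U) ∧
    (∀ (l k : ℕ), l.Prime → l ≠ p → (l ∣ Fintype.card G → l ^ k ∣ m) →
      l ∣ Nat.card (V.inertiaSubgroup K) → l ^ k ∣ Nat.card (IsLocalRing.ResidueField
        (V.comap (algebraMap K F))) ^ Fintype.card G - 1) ∧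
    1 < Nat.card (IsLocalRing.ResidueField (V.comap (algebraMap K F))) := by
  let _ := (clMap (R := R) F).toAlgebra
  have hT := tower (R := R) F
  have hFG : IsGalois K F := by
    subst hF
    infer_instance
  have hDB : IsDedekindDomain (integralClosure R L) := integralClosure.isDedekindDomain R K L
  have hfrB : IsFractionRing (integralClosure R L) L :=
    integralClosure.isFractionRing_of_finite_extension K L
  have hfrA : IsFractionRing (integralClosure R F) F :=
    integralClosure.isFractionRing_of_finite_extension K F
  have hMF : Module.Finite R (integralClosure R L) :=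
    IsIntegralClosure.finite R K L (integralClosure R L)
  let ρ : Gal(L/K) →* Gal(F/K) := AlgEquiv.restrictNormalHom F
  have hρs : Function.Surjective ρ := AlgEquiv.restrictNormalHom_surjective L
  have hkerρ : ρ.ker = F.fixingSubgroup := IntermediateField.restrictNormalHom_ker F
  have hker : ((Cov.pr).comp e.toMonoidHom).ker = ρ.ker := by
    rw [hkerρ, hF, IntermediateField.fixingSubgroup_fixedField]
  have hinv : Algebra.IsInvariant (integralClosure R F) (integralClosure R L) ρ.ker := by
    rw [hkerρ]
    exact inv_ker F
  have hinvR : Algebra.IsInvariant R (integralClosure R L) Gal(L/K) := inv_all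
  have hρ : ∀ (σ : Gal(L/K)) (a : integralClosure R F),
      algebraMap (integralClosure R F) (integralClosure R L) (ρ σ • a) =
      σ • algebraMap (integralClosure R F) (integralClosure R L) a := by
    intro σ x
    apply Subtype.ext
    exact AlgEquiv.restrictNormalHom_apply F σ x
  have hcomm : SMulCommClass ρ.ker (integralClosure R F) (integralClosure R L) := by
    refine ⟨fun σ a b => ?_⟩
    rw [Algebra.smul_def, Algebra.smul_def, smul_mul']
    congr 1
    show (σ : Gal(L/K)) • algebraMap (integralClosure R F) (integralClosure R L) a = _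
    rw [← hρ, show ρ (σ : Gal(L/K)) = 1 from σ.2, one_smul]
  have hfaith : FaithfulSMul Gal(L/K) (integralClosure R L) := by
    refine ⟨fun {σ τ} h => ?_⟩
    ext y
    obtain ⟨a, b, hb, rfl⟩ := IsFractionRing.div_surjective (A := integralClosure R L) y
    have h1 : ∀ c : integralClosure R L, σ (algebraMap (integralClosure R L) L c) =
        τ (algebraMap (integralClosure R L) L c) := fun c => congrArg Subtype.val (h c)
    rw [map_div₀, map_div₀, h1, h1]
  -- the elements of `A` are in `V`
  have hAV : ∀ a : integralClosure R F, (a : F) ∈ V := by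
    intro a
    let f : R →+* V := (algebraMap R F).codRestrict V.toSubring hRV
    let _ : Algebra R V := f.toAlgebra
    have hst : IsScalarTower R V F := IsScalarTower.of_algebraMap_eq fun r => rfl
    have h1 : IsIntegral V (a : F) := IsIntegral.tower_top a.2
    obtain ⟨v, hv⟩ := IsIntegrallyClosed.isIntegral_iff.mp h1
    rw [← hv]
    exact v.2
  let g : integralClosure R F →+* V :=
    (algebraMap (integralClosure R F) F).codRestrict V.toSubring hAV
  let q : Ideal (integralClosure R F) := (IsLocalRing.maximalIdeal V).comap g
  have hq : q.IsPrime := inferInstance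
  have hqm : ∀ a : integralClosure R F, a ∈ q ↔ (a : F) ∈ V.nonunits := fun a =>
    (ValuationSubring.coe_mem_nonunits_iff (A := V) (a := g a)).symm
  have hq0 : q ≠ ⊥ := by
    intro h
    apply hV
    rw [eq_top_iff]
    intro x _
    obtain ⟨a, b, hb, rfl⟩ := IsFractionRing.div_surjective (A := integralClosure R F) x
    have hb0 : b ≠ 0 := nonZeroDivisors.ne_zero hb
    have h1 : b ∉ q := by
      rw [h]
      exact hb0
    rw [hqm, ValuationSubring.mem_nonunits_iff_or, not_or, not_not] at h1
    rw [div_eq_mul_inv]
    exact V.mul_mem _ _ (hAV a) h1.2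
  have hRAB : IsScalarTower R (integralClosure R F) (integralClosure R L) :=
    IsScalarTower.of_algebraMap_eq fun r => Subtype.ext (by
      show algebraMap R L r = algebraMap F L (algebraMap R F r)
      exact IsScalarTower.algebraMap_apply R F L r)
  have hinj : Function.Injective (algebraMap (integralClosure R F) (integralClosure R L)) := by
    intro a b h
    apply Subtype.ext
    have h' : algebraMap F L (a : F) = algebraMap F L (b : F) :=
      congrArg (fun z : integralClosure R L => (z : L)) h
    exact (algebraMap F L).injective h'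
  have hintRB : Algebra.IsIntegral R (integralClosure R L) :=
    IsIntegralClosure.isIntegral_algebra R L
  have hintAB : Algebra.IsIntegral (integralClosure R F) (integralClosure R L) :=
    ⟨fun b => (hintRB.isIntegral b).tower_top⟩
  have hfAB : FaithfulSMul (integralClosure R F) (integralClosure R L) :=
    (faithfulSMul_iff_algebraMap_injective _ _).mpr hinj
  obtain ⟨⟨P, hP, hPq⟩⟩ : Nonempty (q.primesOver (integralClosure R L)) :=
    q.nonempty_primesOver
  have hP0 : P ≠ ⊥ := by
    intro h
    subst h
    apply hq0
    rw [hPq.over]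
    exact Ideal.comap_bot_of_injective _ hinj
  have hPR : P.under R ≠ ⊥ := fun h => hP0 (Ideal.eq_bot_of_comap_eq_bot h)
  have hfinP : Finite (R ⧸ P.under R) := hfinR _ inferInstance hPR
  have hfinB : Finite (integralClosure R L ⧸ P) := Module.finite_of_finite (R ⧸ P.under R)
  have hpq : (p : integralClosure R F) ∈ q := by
    rw [hqm]
    exact hpV
  have hpP : (p : integralClosure R L) ∈ P := by
    have h1 : algebraMap (integralClosure R F) (integralClosure R L)
        (p : integralClosure R F) ∈ P := by
      have h2 := hPq.over ▸ hpq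
      exact h2
    rwa [map_natCast] at h1
  have hstab : ∀ u ∈ V.decompositionSubgroup K, ∀ x : F, x ∈ V ↔ u x ∈ V := by
    intro u hu x
    have h1 : u • V = V := MulAction.mem_stabilizer_iff.mp hu
    have h2 : u • x ∈ u • V ↔ x ∈ V := ValuationSubring.smul_mem_pointwise_smul_iff
    rw [h1] at h2
    exact h2.symm
  have h3 : Nat.card (IsLocalRing.ResidueField (V.comap (algebraMap K F))) =
      Nat.card (R ⧸ P.under R) := by
    refine card_residue (V.comap (algebraMap K F)) (fun r => ?_) (P.under R) hPR (fun r => ?_)
    · rw [ValuationSubring.mem_comap, ← IsScalarTower.algebraMap_apply R K F]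
      exact hRV r
    · have h4 : r ∈ P.under R ↔ algebraMap R (integralClosure R F) r ∈ q := by
        rw [hPq.over]
        show algebraMap R (integralClosure R L) r ∈ P ↔
          algebraMap (integralClosure R F) (integralClosure R L)
            (algebraMap R (integralClosure R F) r) ∈ P
        rw [← IsScalarTower.algebraMap_apply R (integralClosure R F) (integralClosure R L)]
      rw [h4, hqm, ValuationSubring.mem_nonunits_iff_or, ValuationSubring.mem_nonunits_iff_or,
        ValuationSubring.mem_comap, map_inv₀]
      have h5 : ((algebraMap R (integralClosure R F) r : integralClosure R F) : F) =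
          algebraMap K F (algebraMap R K r) := IsScalarTower.algebraMap_apply R K F r
      rw [h5, map_eq_zero_iff _ (algebraMap K F).injective]
  refine ⟨?_, ?_, ?_⟩
  · intro l hl hlp U hU hUV
    refine core_cyclic ρ hρs hρ e hker hm q P hP0 p l hp hpP hl hlp U hU ?_
    intro u hu x hx
    rw [hqm, ValuationSubring.mem_nonunits_iff_or] at hx ⊢
    have h1 : ((u • x : integralClosure R F) : F) = u (x : F) := rfl
    rw [h1, map_eq_zero_iff _ u.injective, ← map_inv₀, ← hstab u (hUV hu)]
    exact hx
  · intro l k hl hlp hlk hl2
    have h1 : l ∣ Nat.card (q.inertia Gal(F/K)) := by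
      have h4 : (V.inertiaSubgroup K).map (V.decompositionSubgroup K).subtype ≤
          q.inertia Gal(F/K) := by
        rintro _ ⟨u, hu, rfl⟩ a
        have h5 : MulSemiringAction.toRingAut (V.decompositionSubgroup K)
            (IsLocalRing.ResidueField V) u = 1 := hu
        have h6 := DFunLike.congr_fun h5 (IsLocalRing.residue V (g a))
        have h7 : IsLocalRing.residue V (u • g a) = IsLocalRing.residue V (g a) := h6
        have h8 : u • g a - g a ∈ IsLocalRing.maximalIdeal V := by
          rw [← IsLocalRing.residue_eq_zero_iff, map_sub, h7, sub_self]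
        show _ ∈ q
        rw [hqm]
        exact (ValuationSubring.coe_mem_nonunits_iff (A := V) (a := u • g a - g a)).mpr h8
      have h5 := Subgroup.card_dvd_of_le h4
      have h6 : Nat.card ((V.inertiaSubgroup K).map (V.decompositionSubgroup K).subtype) =
          Nat.card (V.inertiaSubgroup K) :=
        (Nat.card_congr ((V.inertiaSubgroup K).equivMapOfInjective _
          (V.decompositionSubgroup K).subtype_injective).toEquiv).symm
      rw [h6] at h5
      exact hl2.trans h5
    have h2 := core_tame (R := R) ρ hρs hρ e hker q P hP0 p l k hp hpP hl hlp hlk h1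
    rw [h3]
    exact h2
  · rw [h3]
    have h4 : Nontrivial (R ⧸ P.under R) :=
      Ideal.Quotient.nontrivial_iff.mpr (Ideal.IsPrime.ne_top inferInstance)
    exact Finite.one_lt_card

end place

end Run7.h456.IG
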