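import Mathlib
import Pool.Agent.Run7.h456.IG.Val

/-!
# Places of function fields with Galois group `Cov G m`
-/

set_option autoImplicit false

namespace Run7.h456.IG

open scoped Pointwise Polynomial

theorem finite_of_poly {k S : Type} [Field k] [Finite k] [CommRing S] (φ : k[X] →+* S)
    (hφ : Function.Surjective φ) (f : k[X]) (hf : f ≠ 0) (h : φ f = 0) : Finite S := by
  have h1 : Module.Finite k (AdjoinRoot f) := (AdjoinRoot.powerBasis hf).finite
  have h2 : Finite (AdjoinRoot f) := Module.finite_of_finite k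
  let ψ : AdjoinRoot f →+* S := Ideal.Quotient.lift (Ideal.span {f}) φ (by
    intro a ha
    obtain ⟨b, rfl⟩ := Ideal.mem_span_singleton'.mp ha
    rw [map_mul, h, mul_zero])
  refine Finite.of_surjective ψ ?_
  intro s
  obtain ⟨g, rfl⟩ := hφ s
  exact ⟨Ideal.Quotient.mk _ g, rfl⟩

section chart

variable {k K : Type} [Field k] [Finite k] [Field K] [Algebra k K] (y : K)

/-- the chart with the coordinate `y` -/
noncomputable def chartMap : k[X] →+* Algebra.adjoin k {y} :=
  (Polynomial.aeval y : k[X] →ₐ[k] K).toRingHom.codRestrict (Algebra.adjoin k {y}).toSubring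
    (fun f => by
      show Polynomial.aeval y f ∈ Algebra.adjoin k {y}
      rw [Algebra.adjoin_singleton_eq_range_aeval]
      exact ⟨f, rfl⟩)

theorem chartMap_surjective : Function.Surjective (chartMap (k := k) y) := by
  rintro ⟨z, hz⟩
  have h1 := hz
  rw [Algebra.adjoin_singleton_eq_range_aeval] at h1
  obtain ⟨f, hf⟩ := h1
  exact ⟨f, Subtype.ext hf⟩

theorem chart_pid : IsPrincipalIdealRing (Algebra.adjoin k {y}) :=
  IsPrincipalIdealRing.of_surjective (chartMap (k := k) y) (chartMap_surjective y)

theorem chart_frac (htop : IntermediateField.adjoin k {y} = ⊤) :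
    IsFractionRing (Algebra.adjoin k {y}) K := by
  apply IsFractionRing.of_field
  intro z
  have h1 : z ∈ IntermediateField.adjoin k {y} := by
    rw [htop]
    exact IntermediateField.mem_top
  obtain ⟨r, s, hrs⟩ := (IntermediateField.mem_adjoin_simple_iff k z).mp h1
  exact ⟨chartMap y r, chartMap y s, hrs⟩

theorem chart_finite (P : Ideal (Algebra.adjoin k {y})) (hP : P ≠ ⊥) :
    Finite (Algebra.adjoin k {y} ⧸ P) := by
  obtain ⟨a, ha, ha0⟩ := Submodule.exists_mem_ne_zero_of_ne_bot hP
  obtain ⟨f, hf⟩ := chartMap_surjective y a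
  refine finite_of_poly ((Ideal.Quotient.mk P).comp (chartMap y))
    (Ideal.Quotient.mk_surjective.comp (chartMap_surjective y)) f ?_ ?_
  · rintro rfl
    apply ha0
    rw [← hf, map_zero]
  · rw [RingHom.comp_apply, hf]
    exact Ideal.Quotient.eq_zero_iff_mem.mpr ha

theorem const_mem (V : ValuationSubring K) (c : k) : algebraMap k K c ∈ V := by
  have hft : Fintype k := Fintype.ofFinite k
  rcases V.mem_or_inv_mem (algebraMap k K c) with h | h
  · exact h
  · rcases eq_or_ne c 0 with rfl | hc
    · rw [map_zero]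
      exact V.zero_mem
    · have h1 : c = (c⁻¹) ^ (Fintype.card k - 2) := by
        have h2 := FiniteField.pow_card_sub_one_eq_one c hc
        have h3 : 1 < Fintype.card k := Fintype.one_lt_card
        have h4 : Fintype.card k - 1 = (Fintype.card k - 2) + 1 := by omega
        rw [h4, pow_succ] at h2
        rw [inv_pow]
        exact eq_inv_of_mul_eq_one_right h2
      rw [h1, map_pow, map_inv₀]
      exact pow_mem h _

theorem chart_mem (V : ValuationSubring K) (hy : y ∈ V) (z : Algebra.adjoin k {y}) :
    (z : K) ∈ V := by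
  have h1 : Algebra.adjoin k {y} ≤
      { V.toSubring with algebraMap_mem' := fun c => const_mem V c } := by
    rw [Algebra.adjoin_le_iff]
    intro x hx
    rw [Set.mem_singleton_iff] at hx
    rw [hx]
    exact hy
  exact h1 z.2

end chart

theorem ff_all {k L : Type} [Field k] [Finite k] [Field L] [Algebra (RatFunc k) L]
    [FiniteDimensional (RatFunc k) L] [IsGalois (RatFunc k) L]
    {G : Type} [Group G] [Fintype G] [DecidableEq G] {m : ℕ} [NeZero m]
    (e : Gal(L/(RatFunc k)) ≃* Cov G m)
    (hm : ∀ l : ℕ, l.Prime → l ∣ Fintype.card G → l ^ (3 * (Fintype.card G).factorization l) ∣ m)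
    (F : IntermediateField (RatFunc k) L)
    (hF : F = IntermediateField.fixedField ((Cov.pr).comp e.toMonoidHom).ker)
    (V : ValuationSubring F) (hV : V ≠ ⊤) (p : ℕ) (hp : p.Prime) [CharP k p] :
    (∀ (l : ℕ), l.Prime → l ≠ p → ∀ U : Subgroup Gal(F/(RatFunc k)), IsPGroup l U →
      U ≤ V.decompositionSubgroup (RatFunc k) → IsCyclic U) ∧
    (∀ (l j : ℕ), l.Prime → l ≠ p → (l ∣ Fintype.card G → l ^ j ∣ m) →
      l ∣ Nat.card (V.inertiaSubgroup (RatFunc k)) → l ^ j ∣ Nat.card (IsLocalRing.ResidueField
        (V.comap (algebraMap (RatFunc k) F))) ^ Fintype.card G - 1) ∧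
    1 < Nat.card (IsLocalRing.ResidueField (V.comap (algebraMap (RatFunc k) F))) := by
  obtain ⟨y, htop, hyV⟩ : ∃ y : RatFunc k, IntermediateField.adjoin k {y} = ⊤ ∧
      y ∈ V.comap (algebraMap (RatFunc k) F) := by
    rcases (V.comap (algebraMap (RatFunc k) F)).mem_or_inv_mem RatFunc.X with h | h
    · exact ⟨_, RatFunc.adjoin_X, h⟩
    · refine ⟨_, ?_, h⟩
      rw [eq_top_iff, ← RatFunc.adjoin_X, IntermediateField.adjoin_le_iff]
      intro x hx
      rw [Set.mem_singleton_iff] at hx
      rw [hx]
      have h1 : (RatFunc.X : RatFunc k)⁻¹ ∈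
          IntermediateField.adjoin k {(RatFunc.X : RatFunc k)⁻¹} :=
        IntermediateField.mem_adjoin_simple_self k _
      have h2 := inv_mem h1
      rwa [inv_inv] at h2
  have h1 := chart_pid (k := k) y
  have h2 := chart_frac (k := k) y htop
  have hchar : ((p : ℕ) : F) = 0 := by
    have e1 : ((p : ℕ) : k) = 0 := CharP.cast_eq_zero k p
    have e2 := congrArg (algebraMap k (RatFunc k)) e1
    have e3 := congrArg (algebraMap (RatFunc k) F) e2
    rwa [map_natCast, map_natCast, map_zero, map_zero] at e3
  exact place_all (R := Algebra.adjoin k {y}) F (fun P _ hP => chart_finite y P hP) e hm hF V hV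
    (fun r => chart_mem y (V.comap (algebraMap (RatFunc k) F)) hyV r) p hp
    (by rw [hchar]; exact V.nonunits.zero_mem)

end Run7.h456.IG
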